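import Pool.Agent.H68.IM.Df
import Pool.Agent.H68.QS.Dec

/-!
ROW Dec (intermediate fields of `L = k L'`).  PROOF.
(The row `QS/Dec.lean` has the same arguments for `L ⊆ k(ζ)`; take its lemmas if they are there.)
`Z = h(L')` as `IntermediateField ℚ L` (`(h.toRatAlgHom).fieldRange`). `L'` is a subfield of a cyclotomic field (`hR.2`), so `L'/ℚ` is abelian, and `Z/ℚ` is Galois (`H5SW` has this for `IsR`; or: a subfield of the abelian field
`CyclotomicField _ ℚ` is normal over the rationals).
(1) For any `B : IntermediateField ℚ L` which contains the image of `k`: `Z ⊔ B = ⊤` (`hgen`), so `[L : B] = [Z : Z ⊓ B]` (restriction `Gal(L/B) → Gal(Z/Z ⊓ B)` is bijective: `restrictRestrictAlgEquivMapHom_injective` /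
 `_surjective` in `Mathlib/FieldTheory/Galois/Basic.lean`, or linear disjointness over `Z ⊓ B`, `Mathlib/FieldTheory/LinearDisjoint.lean`): in degrees over the rationals `[L : ℚ] * [Z ⊓ B : ℚ] = [B : ℚ] * [Z : ℚ]`.
(2) `K' = {x ∈ K | the image of x in L is in Z}` (`Z.comap` of `K → L`, an `IntermediateField ℚ K`), with `K' → L'` the map through `Z ≃ L'`; `Comp`: `f = algebraMap k K`, `g` = inclusion, `h = h`.
 `genL`: `adjoin ℚ (range (k → L) ∪ range h) = ⊤` from `hgen`.
(3) `genK`: let `B` = image of `K` in `L`, `B₁ ⊆ B` the image of the subfield generated by `k` and `K'`. `Z ⊓ B` = image of `K'` ` ⊆ Z ⊓ B₁ ⊆ Z ⊓ B`, so `Z ⊓ B₁ = Z ⊓ B`, and (1) for `B` and `B₁` gives `[B : ℚ] = [B₁ : ℚ]`, so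
 `B₁ = B`.
(4) (1) for `B` = image of `K`: `[L : K] = [L' : K']`.
(5) (1) for `B` = image of `k`: `[L : ℚ] * [Z ⊓ k : ℚ] = [k : ℚ] * [Z : ℚ]`, and for `K`: `[L : ℚ] * [K' : ℚ] = [K : ℚ] * [Z : ℚ]`. So `[K : ℚ] * [Z ⊓ k : ℚ] = [K' : ℚ] * [k : ℚ]`: if `p ^ N ∣ [K : ℚ]` then
 `p ^ N ∣ [K' : ℚ] * 2 ^ r`, and `p` is odd.
-/

set_option autoImplicit false

open IsDedekindDomain NumberField Pool.Agent.H10 H5SW H68QS

namespace H68IM

/-- a subfield of `L` containing the image of `L'` and of `k` is all of `L` -/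
theorem Dec_top {k L L' : Type} [Field k] [NumberField k] [Field L] [NumberField L] [Field L']
    [NumberField L'] [Algebra k L] (h : L' →+* L)
    (hgen : IntermediateField.adjoin k (Set.range h) = ⊤)
    (T : IntermediateField ℚ L) (h1 : ∀ x : L', h x ∈ T) (h2 : ∀ x : k, algebraMap k L x ∈ T) :
    T = ⊤ := by
  rw [eq_top_iff]
  intro x _
  have hx : x ∈ IntermediateField.adjoin k (Set.range h) := by
    rw [hgen]
    exact IntermediateField.mem_top
  induction hx using IntermediateField.adjoin_induction with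
  | mem y hy =>
    obtain ⟨z, rfl⟩ := hy
    exact h1 z
  | algebraMap r => exact h2 r
  | add y z _ _ hy hz => exact T.add_mem (hy IntermediateField.mem_top) (hz IntermediateField.mem_top)
  | inv y _ hy => exact T.inv_mem (hy IntermediateField.mem_top)
  | mul y z _ _ hy hz => exact T.mul_mem (hy IntermediateField.mem_top) (hz IntermediateField.mem_top)

/-- a real subfield of a cyclotomic field is Galois -/
theorem Dec_gal {p : ℕ} [Fact p.Prime] {L' : Type} [Field L'] [NumberField L'] (hR : IsR p L') :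
    IsGalois ℚ L' := by
  have hp : p.Prime := Fact.out
  obtain ⟨-, n, ⟨j⟩⟩ := hR
  have hne : NeZero (p ^ (n + 1)) := ⟨pow_ne_zero _ hp.ne_zero⟩
  have hcyc : IsCyclotomicExtension {p ^ (n + 1)} ℚ (CyclotomicField (p ^ (n + 1)) ℚ) :=
    CyclotomicField.isCyclotomicExtension _ _
  have h1 : IsAbelianGalois ℚ (CyclotomicField (p ^ (n + 1)) ℚ) :=
    IsCyclotomicExtension.isAbelianGalois {p ^ (n + 1)} ℚ _
  have h2 : IsAbelianGalois ℚ L' := IsAbelianGalois.of_algHom j.toRatAlgHom
  infer_instance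

theorem decompose_gen {k K L L' : Type} [Field k] [NumberField k] [Field K] [NumberField K]
    [Field L] [NumberField L] [Field L'] [NumberField L'] [Algebra k K] [Algebra k L] [Algebra K L]
    [IsScalarTower k K L] {p : ℕ} [Fact p.Prime] (hp2 : p ≠ 2) (h : L' →+* L) (hR : IsR p L')
    (hgen : IntermediateField.adjoin k (Set.range h) = ⊤)
    (hk : ∃ r : ℕ, Module.finrank ℚ k = 2 ^ r) :
    ∃ (K' : Type) (_ : Field K') (_ : NumberField K') (_ : Algebra K' L'),
      (∃ C : Comp k K' L' K L, ∀ x, C.f x = algebraMap k K x) ∧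
      Module.finrank K' L' = Module.finrank K L ∧
      ∀ N : ℕ, p ^ N ∣ Module.finrank ℚ K → p ^ N ∣ Module.finrank ℚ K' := by
  have hp : p.Prime := Fact.out
  have hgal : IsGalois ℚ L' := Dec_gal hR
  let hQ : L' →ₐ[ℚ] L := h.toRatAlgHom
  have hQh : ∀ x, hQ x = h x := fun x => rfl
  set Z : IntermediateField ℚ L := hQ.fieldRange with hZ
  have hZgal : @IsGalois ℚ _ Z _ (IntermediateField.algebra' Z) :=
    IsGalois.of_algEquiv hQ.equivFieldRange
  let ψK : K →ₐ[ℚ] L := IsScalarTower.toAlgHom ℚ K L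
  let ψk : k →ₐ[ℚ] L := IsScalarTower.toAlgHom ℚ k L
  have cL : ∀ x : k, ψK (algebraMap k K x) = algebraMap k L x := fun x =>
    (IsScalarTower.algebraMap_apply k K L x).symm
  set SK : Set K := Set.range (algebraMap k K) with hSK
  have memZ : ∀ x : L', h x ∈ Z := fun x => ⟨x, rfl⟩
  have hK : Z ⊔ (IntermediateField.adjoin ℚ SK).map ψK = ⊤ := by
    refine Dec_top (k := k) h hgen _ (fun x => (le_sup_left : Z ≤ _) (memZ x)) fun x => ?_
    refine (le_sup_right : (IntermediateField.adjoin ℚ SK).map ψK ≤ _) ?_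
    exact ⟨_, IntermediateField.subset_adjoin ℚ _ ⟨x, rfl⟩, cL x⟩
  have hk' : Z ⊔ ψk.fieldRange = ⊤ := by
    refine Dec_top (k := k) h hgen _ (fun x => (le_sup_left : Z ≤ _) (memZ x)) fun x => ?_
    exact (le_sup_right : ψk.fieldRange ≤ _) ⟨x, rfl⟩
  have hK' : Z ⊔ ψK.fieldRange = ⊤ := by
    rw [eq_top_iff, ← hK]
    refine sup_le_sup_left ?_ Z
    rintro x ⟨y, -, rfl⟩
    exact ⟨y, rfl⟩
  have gK := H68QS.Dec_gen ψK Z SK hK
  have dK := H68QS.Dec_deg ψK Z hK'
  have dk := H68QS.Dec_deg ψk Z hk'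
  have zpos : 0 < Module.finrank ℚ Z := Module.finrank_pos
  have lpos : 0 < Module.finrank ℚ L := Module.finrank_pos
  have Kpos : 0 < Module.finrank ℚ K := Module.finrank_pos
  have K'pos : 0 < Module.finrank ℚ (Z.comap ψK) := Module.finrank_pos
  have zeq : Module.finrank ℚ L' = Module.finrank ℚ Z :=
    hQ.equivFieldRange.toLinearEquiv.finrank_eq
  let i : (Z.comap ψK) →+* L' := (hQ.equivFieldRange.symm : Z ≃ₐ[ℚ] L').toRingEquiv.toRingHom.comp
    { toFun := fun x => (⟨ψK x.1, x.2⟩ : Z)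
      map_one' := by ext; simp
      map_zero' := by ext; simp
      map_mul' := by intro x y; ext; simp
      map_add' := by intro x y; ext; simp }
  have hi : ∀ x, h (i x) = algebraMap K L x.1 := by
    intro x
    have h1 : hQ.equivFieldRange (i x) = (⟨ψK x.1, x.2⟩ : Z) :=
      hQ.equivFieldRange.apply_symm_apply _
    have h2 := congrArg Subtype.val h1
    exact h2
  let alg : Algebra (Z.comap ψK) L' := i.toAlgebra
  refine ⟨Z.comap ψK, inferInstance, inferInstance, alg, ⟨?_, ?_⟩, ?_, ?_⟩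
  · refine
      { f := algebraMap k K
        g := (Z.comap ψK).val.toRingHom
        h := h
        comm := fun x => hi x
        genK := ?_
        genL := ?_ }
    · have e : Set.range ((Z.comap ψK).val.toRingHom) = (Z.comap ψK : Set K) := Subtype.range_coe
      rw [e]
      exact gK
    · refine Dec_top (k := k) h hgen _ (fun x => ?_) fun x => ?_
      · exact IntermediateField.subset_adjoin ℚ _ (Or.inr ⟨x, rfl⟩)
      · exact IntermediateField.subset_adjoin ℚ _ (Or.inl ⟨x, cL x⟩)
  · intro x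
    rfl
  · have t1 := Module.finrank_mul_finrank ℚ K L
    have : IsScalarTower ℚ (Z.comap ψK) L' :=
      IsScalarTower.of_algebraMap_eq' (Subsingleton.elim _ _)
    have t2 := Module.finrank_mul_finrank ℚ (Z.comap ψK) L'
    have h1 : Module.finrank ℚ K * Module.finrank ℚ (Z.comap ψK) *
        Module.finrank (Z.comap ψK) L' =
        Module.finrank ℚ K * Module.finrank ℚ (Z.comap ψK) * Module.finrank K L := by
      calc _ = Module.finrank ℚ K * (Module.finrank ℚ (Z.comap ψK) *
            Module.finrank (Z.comap ψK) L') := by ring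
        _ = Module.finrank ℚ L * Module.finrank ℚ (Z.comap ψK) := by rw [t2, zeq, dK]
        _ = _ := by rw [← t1]; ring
    exact Nat.eq_of_mul_eq_mul_left (Nat.mul_pos Kpos K'pos) h1
  · intro N hN
    obtain ⟨r, hr⟩ := hk
    have h1 : Module.finrank ℚ K * Module.finrank ℚ (Z.comap ψk) =
        Module.finrank ℚ (Z.comap ψK) * 2 ^ r := by
      rw [← hr]
      apply Nat.eq_of_mul_eq_mul_left (Nat.mul_pos lpos zpos)
      calc _ = (Module.finrank ℚ K * Module.finrank ℚ Z) *
            (Module.finrank ℚ L * Module.finrank ℚ (Z.comap ψk)) := by ring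
        _ = _ := by rw [← dK, dk]; ring
    have h2 : p ^ N ∣ Module.finrank ℚ (Z.comap ψK) * 2 ^ r := by
      rw [← h1]
      exact hN.mul_right _
    refine (Nat.Coprime.dvd_of_dvd_mul_right ?_ h2)
    exact Nat.Coprime.pow _ _ ((Nat.coprime_primes hp Nat.prime_two).2 hp2)

end H68IM
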