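import Pool.Agent.H68.IM.Df
import Pool.Agent.H68.QS.Unr

/-!
ROW Emb (two is unramified in `k L'`).  PROOF.
`hR.2`: `n` and `ε : L' →+* CyclotomicField (p ^ (n+1)) ℚ`. Put `m = p ^ (n+1)`, `C = CyclotomicField m L`, a field over `L`, so over `k` (composite; `Algebra k C` by `((algebraMap L C).comp (algebraMap k L)).toAlgebra` with
`IsScalarTower k L C`), `ζ ∈ C` a primitive root of unity of order `m`. Claim: `IntermediateField.adjoin k {ζ} = ⊤` in `C`. As `C = L(ζ)` and `L` is generated by `k` and `h(L')`, it is enough that `h(L') ⊆ ℚ(ζ)` in `C`. There are two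
ring homomorphisms `L' → C`: `algebraMap L C ∘ h`, and `ε` followed by `CyclotomicField m ℚ ≃ ℚ(ζ) ⊆ C` (`IsCyclotomicExtension.algEquiv`, or `IsPrimitiveRoot.powerBasis` lift). `L'/ℚ` is normal (a subfield of an abelian
extension), so both have the same image (`AlgHom.fieldRange_of_normal`, or `Normal` and `AlgHom.restrictNormal`). So `C` is a cyclotomic extension of `k` (`IsCyclotomicExtension {m} k C`:
`IsCyclotomicExtension.iff_adjoin_eq_top`-type lemma, or `IsPrimitiveRoot.adjoin_isCyclotomicExtension`), `C ≃ₐ[k] CyclotomicField m k` (`IsCyclotomicExtension.algEquiv`), and `L →ₐ[k] C ≃ₐ[k] CyclotomicField m k`;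
now `H68QS.unr_cyc`.
-/

set_option autoImplicit false

open IsDedekindDomain NumberField WithZero Pool.Agent.H10 H5SW H68QS

namespace H68IM

theorem Emb_cyc {k L L' C : Type} [Field k] [NumberField k] [Field L] [NumberField L] [Field L']
    [NumberField L'] [Field C] [NumberField C] [Algebra k L] [Algebra L C] [Algebra k C]
    [IsScalarTower k L C] {m : ℕ} [NeZero m] [IsCyclotomicExtension {m} L C]
    (h : L' →+* L) (ε : L' →+* CyclotomicField m ℚ)
    (hgen : IntermediateField.adjoin k (Set.range h) = ⊤) : IsCyclotomicExtension {m} k C := by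
  have hζ := IsCyclotomicExtension.zeta_spec m L C
  obtain ⟨ζ, hζdef⟩ : ∃ ζ, ζ = IsCyclotomicExtension.zeta m L C := ⟨_, rfl⟩
  rw [← hζdef] at hζ
  have hcyc := hζ.intermediateField_adjoin_isCyclotomicExtension ℚ
  have hne : NeZero ((m : ℕ) : ℚ) := ⟨Nat.cast_ne_zero.2 (NeZero.ne m)⟩
  have hcyc' : IsCyclotomicExtension {m} ℚ (CyclotomicField m ℚ) :=
    CyclotomicField.isCyclotomicExtension m ℚ
  obtain ⟨e⟩ : Nonempty (CyclotomicField m ℚ →+* IntermediateField.adjoin ℚ {ζ}) :=
    ⟨(@IsCyclotomicExtension.algEquiv {m} ℚ (CyclotomicField m ℚ) _ _ _ hcyc'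
      (IntermediateField.adjoin ℚ {ζ}) _ (IntermediateField.algebra' _) hcyc).toRingEquiv.toRingHom⟩
  have hab : IsAbelianGalois ℚ (CyclotomicField m ℚ) :=
    IsCyclotomicExtension.isAbelianGalois {m} ℚ _
  have hab' : IsAbelianGalois ℚ L' := IsAbelianGalois.of_algHom ε.toRatAlgHom
  let β : L' →ₐ[ℚ] C := (((IntermediateField.adjoin ℚ {ζ}).val.toRingHom.comp e).comp ε).toRatAlgHom
  let α : L' →ₐ[ℚ] C := ((algebraMap L C).comp h).toRatAlgHom
  have hα : ∀ x : L', algebraMap L C (h x) ∈ IntermediateField.adjoin ℚ {ζ} := by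
    intro x
    have hs : ((minpoly ℚ x).map (algebraMap ℚ L')).Splits := Normal.splits inferInstance x
    have h1 : α x ∈ (minpoly ℚ x).rootSet C := by
      rw [Polynomial.mem_rootSet]
      refine ⟨minpoly.ne_zero (Algebra.IsIntegral.isIntegral x), ?_⟩
      rw [Polynomial.aeval_algHom_apply, minpoly.aeval, map_zero]
    rw [← hs.image_rootSet β] at h1
    obtain ⟨y, -, hy⟩ := h1
    change α x ∈ _
    rw [← hy]
    exact (e (ε y)).2
  have hF1 : IntermediateField.adjoin ℚ {ζ} ≤
      (IntermediateField.adjoin k {ζ}).restrictScalars ℚ := by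
    rw [IntermediateField.adjoin_le_iff, Set.singleton_subset_iff]
    exact IntermediateField.mem_adjoin_simple_self k ζ
  have hF2 : ∀ l : L, algebraMap L C l ∈ IntermediateField.adjoin k {ζ} := by
    have h2 : (⊤ : IntermediateField k L).map (IsScalarTower.toAlgHom k L C) ≤
        IntermediateField.adjoin k {ζ} := by
      rw [← hgen, IntermediateField.adjoin_map, IntermediateField.adjoin_le_iff]
      rintro _ ⟨_, ⟨x, rfl⟩, rfl⟩
      exact hF1 (hα x)
    intro l
    exact h2 ⟨l, IntermediateField.mem_top, rfl⟩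
  have hF3 : ∀ x : C, x ∈ IntermediateField.adjoin k {ζ} := by
    intro x
    have hx : x ∈ Algebra.adjoin L {ζ} := by
      rw [IsCyclotomicExtension.adjoin_primitive_root_eq_top hζ]
      exact Algebra.mem_top
    induction hx using Algebra.adjoin_induction with
    | mem x hx =>
      rw [Set.mem_singleton_iff] at hx
      rw [hx]
      exact IntermediateField.mem_adjoin_simple_self k ζ
    | algebraMap l => exact hF2 l
    | add x y _ _ hx hy => exact add_mem hx hy
    | mul x y _ _ hx hy => exact mul_mem hx hy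
  rw [IsCyclotomicExtension.iff_singleton]
  refine ⟨⟨ζ, hζ⟩, fun x => ?_⟩
  have hx : x ∈ (IntermediateField.adjoin k {ζ}).toSubalgebra := hF3 x
  rw [IntermediateField.adjoin_simple_toSubalgebra_of_isAlgebraic
    (Algebra.IsAlgebraic.isAlgebraic ζ)] at hx
  refine Algebra.adjoin_mono ?_ hx
  rw [Set.singleton_subset_iff]
  exact hζ.pow_eq_one

theorem unr_gen {k L L' : Type} [Field k] [NumberField k] [Field L] [NumberField L] [Field L']
    [NumberField L'] [Algebra k L] {p : ℕ} [Fact p.Prime] (hp2 : p ≠ 2) (hk : Unr2 k)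
    (h : L' →+* L) (hR : IsR p L') (hgen : IntermediateField.adjoin k (Set.range h) = ⊤) :
    Unr2 L := by
  obtain ⟨-, n, ⟨ε⟩⟩ := hR
  have hne : NeZero (p ^ (n + 1)) := ⟨pow_ne_zero _ (Fact.out : p.Prime).ne_zero⟩
  have hodd : Odd (p ^ (n + 1)) := ((Fact.out : p.Prime).odd_of_ne_two hp2).pow
  have hcyc : IsCyclotomicExtension {p ^ (n + 1)} k (CyclotomicField (p ^ (n + 1)) L) :=
    Emb_cyc h ε hgen
  exact unr_down (K := L) (L := CyclotomicField (p ^ (n + 1)) L) (Unr_cyc (k := k) hodd hk)

end H68IM
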