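import Pool.Agent.H68.IM.Cm

/-!
# MP_78d38b: towers over a non-real field, the chain and the layers
-/

set_option autoImplicit false
set_option linter.style.haveILetI false

open IsDedekindDomain NumberField WithZero Pool.Agent.H10 H5SW H68QS

namespace H68IM

section chain

variable {F₀ k₁ : Type} [Field F₀] [NumberField F₀] [Field k₁] [NumberField k₁] [Algebra F₀ k₁]
  [Algebra.IsQuadraticExtension F₀ k₁]

/-- The chain of quadratic steps over an imaginary quadratic field. -/
theorem chain_im {p k0 : ℕ} [Fact p.Prime] (hp2 : p ≠ 2) (hNV : NV p k0)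
    (hF₀ : IsTotallyReal F₀) (him : IsTotallyComplex k₁) {S S' : Set (HeightOneSpectrum (𝓞 k₁))}
    (hS : Hits F₀ S) (hS' : Hits F₀ S') (h2S : ∀ v ∈ S, (2 : 𝓞 k₁) ∈ v.asIdeal)
    (h2S' : ∀ v ∈ S', (2 : 𝓞 k₁) ∈ v.asIdeal) : ∀ (n : ℕ) (k : Type) [Field k]
    [NumberField k] (j : k₁ →+* k), Module.finrank ℚ k = n → TwoPower k → ∀ M : ℤ, M ≠ 0 →
    ∃ N : ℕ, ∀ (K' L' K L : Type) [Field K'] [NumberField K'] [Field L'] [NumberField L']
      [Field K] [NumberField K] [Field L] [NumberField L] [Algebra K' L'] [Algebra K L]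
      (C : Comp k K' L' K L), IsR p L' → (∃ i : ℕ, Module.finrank K' L' = p ^ i) →
      p ^ N ∣ Module.finrank ℚ K' → Unr2 L →
      GoodI M K L (AboveS S (((algebraMap K L).comp C.f).comp j))
        (AboveS S' (((algebraMap K L).comp C.f).comp j)) := by
  intro n
  induction n using Nat.strong_induction_on with
  | _ n ih =>
    intro k _ _ j hn h2p M hM
    by_cases h1 : Module.finrank ℚ k = Module.finrank ℚ k₁
    · exact goodI_base hp2 hNV hF₀ him hS hS' j h2p h1 hM
    · obtain ⟨F, hF, hjF⟩ := exists_index_two_over j h2p h1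
      obtain ⟨D, δ, hD0, hδ, hadj⟩ := exists_delta hF
      have hlt : Module.finrank ℚ F < n := by
        have h3 := Module.finrank_mul_finrank ℚ F k
        have h4 : 0 < Module.finrank ℚ F := Module.finrank_pos
        rw [hF, hn] at h3
        omega
      have h2p₁ : TwoPower F := h2p.of_hom F.val.toRingHom
      let j' : k₁ →+* F :=
        { toFun := fun x => ⟨j x, hjF x⟩
          map_one' := Subtype.ext (map_one _)
          map_mul' := fun x y => Subtype.ext (map_mul _ _ _)
          map_zero' := Subtype.ext (map_zero _)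
          map_add' := fun x y => Subtype.ext (map_add _ _ _) }
      have hj' : ∀ x, ((j' x : F) : k) = j x := fun x => rfl
      set nD : ℕ := Ideal.absNorm (Ideal.span {D}) with hnD
      have hnD0 : (nD : ℤ) ≠ 0 := by
        rw [Ne, Nat.cast_eq_zero, hnD, Ideal.absNorm_eq_zero_iff, Ideal.span_singleton_eq_bot]
        exact hD0
      have hdvd : D ∣ (nD : 𝓞 F) := by
        rw [← Ideal.mem_span_singleton]
        exact Ideal.absNorm_mem _
      obtain ⟨N, hN⟩ := ih _ hlt F j' rfl h2p₁ (2 * nD * M)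
        (mul_ne_zero (mul_ne_zero two_ne_zero hnD0) hM)
      refine ⟨N, ?_⟩
      intro K' L' K L _ _ _ _ _ _ _ _ _ _ C hL hi hKN hunr
      have hMM : M ∣ 2 * nD * M := dvd_mul_left _ _
      rcases sub_pair' C F δ hadj with ⟨C₁, hC₁⟩ | ⟨K0, L0, _, _, _, _, _, _, _, _, _, _, C₁, hf,
        hne, hgK, hgL, hgen⟩
      · have e : ((algebraMap K L).comp C₁.f).comp j' = ((algebraMap K L).comp C.f).comp j := by
          ext x
          change algebraMap K L (C₁.f (j' x)) = algebraMap K L (C.f (j x))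
          rw [hC₁, hj']
        rw [← e]
        exact (hN K' L' K L C₁ hL hi hKN hunr).weaken hMM
      · have G := hN K' L' K0 L0 C₁ hL hi hKN (unr_down (L := L) hunr)
        let D0 : 𝓞 K0 := RingOfIntegers.mapRingHom C₁.f D
        have hD0 : (D0 : K0) = C₁.f (D : F) := rfl
        have hsq : (C.f δ) ^ 2 = algebraMap K0 K (D0 : K0) := by
          rw [hD0, hf, ← map_pow, hδ]
          rfl
        haveI : Algebra.IsQuadraticExtension K0 K := quad_of_adjoin hsq hne hgK
        have hjj : ∀ x, algebraMap L0 L ((((algebraMap K0 L0).comp C₁.f).comp j') x) =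
            (((algebraMap K L).comp C.f).comp j) x := by
          intro x
          change algebraMap L0 L (algebraMap K0 L0 (C₁.f (j' x))) = algebraMap K L (C.f (j x))
          rw [← IsScalarTower.algebraMap_apply K0 L0 L, IsScalarTower.algebraMap_apply K0 K L, hf,
            hj']
        refine goodI_step (K := K0) (L := L0) (D := D0) hsq hne hgL hgen hunr hMM ?_
          (fun w hw => two_mem_aboveS h2S hw) (fun w hw => two_mem_aboveS h2S' hw)
          (fun w hw W hW => aboveS_over hjj w hw W hW)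
          (fun w hw W hW => aboveS_over hjj w hw W hW) G
        intro v hv
        obtain ⟨c, hc⟩ := hdvd
        have h5 : (nD : 𝓞 K0) = D0 * RingOfIntegers.mapRingHom C₁.f c := by
          have := congrArg (RingOfIntegers.mapRingHom C₁.f) hc
          rwa [map_natCast, map_mul] at this
        push_cast
        rw [h5]
        have e : (2 : 𝓞 K0) * (D0 * RingOfIntegers.mapRingHom C₁.f c) * (M : 𝓞 K0) =
            (2 * D0) * (RingOfIntegers.mapRingHom C₁.f c * M) := by ring
        rw [e]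
        exact Ideal.mul_mem_right _ _ hv

/-- The layers `K ⊆ L = k L'` of the cyclotomic tower over a field `k` of two-power type which
contains a CM field `k₁` with totally real subfield `F₀`; `S` and `S'` are sets of primes of `k₁`
above two which contain a prime above each prime of `F₀` above two. -/
theorem layer_im {p : ℕ} [Fact p.Prime] (hp2 : p ≠ 2) (hF₀ : IsTotallyReal F₀)
    (him : IsTotallyComplex k₁) {S S' : Set (HeightOneSpectrum (𝓞 k₁))}
    (hS : Hits F₀ S) (hS' : Hits F₀ S') (h2S : ∀ v ∈ S, (2 : 𝓞 k₁) ∈ v.asIdeal)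
    (h2S' : ∀ v ∈ S', (2 : 𝓞 k₁) ∈ v.asIdeal)
    {k : Type} [Field k] [NumberField k] (j : k₁ →+* k)
    (h2p : TwoPower k) (hk : Unr2 k) {D : 𝓞 k} (hD : D ≠ 0) : ∃ N : ℕ,
    ∀ (K L L' : Type) [Field K] [NumberField K] [Field L] [NumberField L] [Field L']
      [NumberField L'] [Algebra k K] [Algebra k L] [Algebra K L] [IsScalarTower k K L]
      (h : L' →+* L), IsR p L' → IntermediateField.adjoin k (Set.range h) = ⊤ →
      (∃ i : ℕ, Module.finrank K L = p ^ i) → p ^ N ∣ Module.finrank ℚ K →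
      IsGalois K L ∧ Odd (Module.finrank K L) ∧
      NoNewOn K L (AboveS S ((algebraMap k L).comp j)) ∧
      NoNewOn K L (AboveS S' ((algebraMap k L).comp j)) ∧
      (∀ v : HeightOneSpectrum (𝓞 K), algebraMap (𝓞 k) (𝓞 K) D ∈ v.asIdeal →
        UniqueOver K L v.asIdeal) ∧
      (∀ w : HeightOneSpectrum (𝓞 L), (2 : 𝓞 L) ∈ w.asIdeal → (2 : 𝓞 L) ∉ w.asIdeal ^ 2) ∧
      (¬ 3 ∣ Module.finrank K L ∨ ∀ v : HeightOneSpectrum (𝓞 K), (2 : 𝓞 K) ∈ v.asIdeal →
        ∃ c : 𝓞 K, c ^ 3 + c ^ 2 + 1 ∈ v.asIdeal) := by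
  obtain ⟨k0, hk0⟩ := sinnott (p := p) hp2
  set nD : ℕ := Ideal.absNorm (Ideal.span {D}) with hnD
  have hnD0 : (nD : ℤ) ≠ 0 := by
    rw [Ne, Nat.cast_eq_zero, hnD, Ideal.absNorm_eq_zero_iff, Ideal.span_singleton_eq_bot]
    exact hD
  obtain ⟨c, hc⟩ : D ∣ (nD : 𝓞 k) := by
    rw [← Ideal.mem_span_singleton]
    exact Ideal.absNorm_mem _
  obtain ⟨N, hN⟩ := chain_im hp2 hk0 hF₀ him hS hS' h2S h2S' _ k j rfl h2p nD hnD0
  refine ⟨N, ?_⟩
  intro K L L' _ _ _ _ _ _ _ _ _ _ h hR hgen ⟨i, hi⟩ hKN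
  have hunr : Unr2 L := unr_gen hp2 hk h hR hgen
  obtain ⟨K', _, _, _, ⟨C, hC⟩, hfr, hdiv⟩ := decompose_gen (K := K) hp2 h hR hgen h2p.finrank
  have G := hN K' L' K L C hR ⟨i, by rw [hfr, hi]⟩ (hdiv N hKN) hunr
  have e : ((algebraMap K L).comp C.f).comp j = (algebraMap k L).comp j := by
    ext x
    change algebraMap K L (C.f (j x)) = algebraMap k L (j x)
    rw [hC, ← IsScalarTower.algebraMap_apply k K L]
  rw [e] at G
  refine ⟨G.gal, G.odd, G.RP, G.RQ, ?_, hunr, G.three⟩
  intro v hv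
  apply G.bad v
  rw [Int.cast_natCast]
  have : (nD : 𝓞 K) = algebraMap (𝓞 k) (𝓞 K) D * algebraMap (𝓞 k) (𝓞 K) c := by
    rw [← map_mul, ← hc, map_natCast]
  rw [this]
  exact Ideal.mul_mem_right _ _ hv

end chain

end H68IM
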