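import Pool.Agent.H68.IM.Df

/-!
ROW Abv (a prime above `w` and above `P`).  PROOF.
Let `W` be a prime of `L` over `w` (`H68QS.exists_over`), `P₁` the inverse image of `W` under `mapRingHom j : 𝓞 k₁ → 𝓞 L`, a prime which contains 2. `k₁/ℚ` is Galois (`Algebra.IsQuadraticExtension ℚ k₁`,
characteristic zero), `P` and `P₁` both lie over `(2)` of `ℤ` (maximal ideal generated by 2), so there is `σ : k₁ ≃ₐ[ℚ] k₁` with `σ P = P₁` (transitivity, file `Mathlib/NumberTheory/RamificationInertia/Galois.lean`,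
`Ideal.exists_map_eq_of_isGalois`, or the version with `Gal(k₁/ℚ)` acting on `𝓞 k₁`; use `galRestrict ℤ ℚ k₁ (𝓞 k₁)`): for `x ∈ P`: `σ x ∈ P₁`.
`exists_invol` (file `QS/Alg.lean`) for `k₁/ℚ` and `L/L'`: involutions `s₁` of `k₁` and `s` of `L`; `Gal(k₁/ℚ) = {1, s₁}` (order two). If `σ = 1`, take `W`. Otherwise `σ = s₁`; `s₁ θ = -θ` (`θ` is not rational since `j θ ∉ L'`;
`conj_delta`), `s (j θ) = - j θ` (`conj_delta`), and so `s (j y) = j (s₁ y)` for all `y ∈ k₁` (`y = a + b θ` with rational `a, b`). `exists_conj s W` gives `W'` with `W.valuation (s x) = W'.valuation x`, so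
`x ∈ W' ↔ s x ∈ W` for `x ∈ 𝓞 L`, and the same elements of `𝓞 L'` as `W`: so `W'` lies over `w`. For `y ∈ P`: `s (j y) = j (s₁ y)` and `s₁ y ∈ P₁`, so `s (j y) ∈ W`, so `j y ∈ W'`. Take `W'`.
-/

set_option autoImplicit false

open IsDedekindDomain NumberField WithZero Pool.Agent.H10 H68QS

namespace H68IM

theorem Abv_int {k₁ : Type} [Field k₁] [NumberField k₁] {P : Ideal (𝓞 k₁)} (hP : P.IsPrime)
    (h2P : (2 : 𝓞 k₁) ∈ P) {N : ℤ} (hN : ((N : ℤ) : 𝓞 k₁) ∈ P) : (2 : ℤ) ∣ N := by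
  by_contra h
  apply hP.ne_top
  rw [Ideal.eq_top_iff_one]
  have h1 : N % 2 = 1 := by omega
  have h2 : ((N : ℤ) : 𝓞 k₁) - 2 * ((N / 2 : ℤ) : 𝓞 k₁) = 1 := by
    have h3 : N - 2 * (N / 2) = 1 := by omega
    have h4 := congrArg (fun z : ℤ => (z : 𝓞 k₁)) h3
    push_cast at h4
    exact h4
  rw [← h2]
  exact P.sub_mem hN (P.mul_mem_right _ h2P)

theorem Abv_conj {k₁ L' L : Type} [Field k₁] [NumberField k₁] [Field L'] [NumberField L']
    [Field L] [NumberField L] [Algebra L' L] (j : k₁ →+* L) {θ : k₁}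
    {s₁ : k₁ ≃ₐ[ℚ] k₁} {s : L ≃ₐ[L'] L} (hs₁ : ∀ x, s₁ (s₁ x) = x)
    (hfix : ∀ x, s₁ x = x → ∃ y, algebraMap ℚ k₁ y = x) (h1 : s₁ θ = -θ)
    (h2 : s (j θ) = -j θ) (h0 : j θ ≠ 0) (y : k₁) : s (j y) = j (s₁ y) := by
  have hq : ∀ a : ℚ, s (j (algebraMap ℚ k₁ a)) = j (algebraMap ℚ k₁ a) := by
    intro a
    have e : j (algebraMap ℚ k₁ a) = (a : L) := by
      rw [eq_ratCast (algebraMap ℚ k₁) a, map_ratCast]
    rw [e, map_ratCast]
  obtain ⟨a, ha⟩ := hfix (y + s₁ y) (by rw [map_add, hs₁, add_comm])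
  obtain ⟨c, hc⟩ := hfix ((y - s₁ y) * θ) (by rw [map_mul, map_sub, hs₁, h1]; ring)
  have e1 := hq a
  have e2 := hq c
  rw [ha, map_add, map_add] at e1
  rw [hc, map_mul, map_sub, map_mul, map_sub, h2] at e2
  have e3 : s (j y) - s (j (s₁ y)) = -(j y - j (s₁ y)) := by
    apply mul_right_cancel₀ h0
    linear_combination -e2
  have e4 : (2 : L) * s (j y) = 2 * j (s₁ y) := by linear_combination e1 + e3
  exact mul_left_cancel₀ two_ne_zero e4

theorem exists_above {k₁ L' L : Type} [Field k₁] [NumberField k₁] [Field L'] [NumberField L']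
    [Field L] [NumberField L] [Algebra L' L] [Algebra.IsQuadraticExtension ℚ k₁]
    [Algebra.IsQuadraticExtension L' L] (j : k₁ →+* L) {θ : k₁} {q : ℚ}
    (hθ : θ ^ 2 = algebraMap ℚ k₁ q) (hj : ∀ r : L', algebraMap L' L r ≠ j θ)
    {P : Ideal (𝓞 k₁)} (hP : P.IsPrime) (h2P : (2 : 𝓞 k₁) ∈ P)
    (w : HeightOneSpectrum (𝓞 L')) (hw : (2 : 𝓞 L') ∈ w.asIdeal) :
    ∃ W ∈ Above P j, W.asIdeal.LiesOver w.asIdeal := by
  obtain ⟨W, hW⟩ := exists_over (L2 := L) w
  have h2W : (2 : 𝓞 L) ∈ W.asIdeal := by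
    rw [hW.over, Ideal.mem_comap, map_ofNat] at hw
    exact hw
  obtain ⟨s₁, hs₁, hN₁, hfix₁⟩ := exists_invol (L := ℚ) (L2 := k₁)
  obtain ⟨s, hs, hN, hfix⟩ := exists_invol (L := L') (L2 := L)
  have hjq : ∀ a : ℚ, j (algebraMap ℚ k₁ a) = algebraMap L' L (a : L') := by
    intro a
    rw [eq_ratCast (algebraMap ℚ k₁) a, map_ratCast, map_ratCast]
  have h1 : s₁ θ = -θ := by
    refine conj_delta hfix₁ hθ ?_
    intro r hr
    apply hj (r : L')
    rw [← hjq, hr]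
  have h2 : s (j θ) = -j θ := by
    refine conj_delta (D := (q : L')) hfix ?_ hj
    rw [← map_pow, hθ, hjq]
  have h0 : j θ ≠ 0 := by
    intro h
    apply hj 0
    rw [h, map_zero]
  have hsj := Abv_conj (L' := L') j hs₁ hfix₁ h1 h2 h0
  obtain ⟨W', hW', hmem⟩ := exists_conj s W
  have hW'over : W'.asIdeal.LiesOver w.asIdeal := by
    refine ⟨?_⟩
    rw [hW.over]
    ext y
    exact (hmem y).symm
  have hlt : ∀ (V : HeightOneSpectrum (𝓞 L)) (x : 𝓞 L), x ∈ V.asIdeal ↔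
      V.valuation L (x : L) < 1 := by
    intro V x
    rw [V.valuation_lt_one_iff_mem]
  have hun : (P : Set (𝓞 k₁)) ⊆
      ((W.asIdeal.comap (RingOfIntegers.mapRingHom j) : Ideal (𝓞 k₁)) : Set (𝓞 k₁)) ∪
      ((W'.asIdeal.comap (RingOfIntegers.mapRingHom j) : Ideal (𝓞 k₁)) : Set (𝓞 k₁)) := by
    intro x hx
    have hxP : x ∈ P := hx
    -- the norm
    set N := Algebra.norm ℤ x with hNdef
    have hNx : ((N : ℤ) : k₁) = (x : k₁) * s₁ (x : k₁) := by
      rw [← hN₁]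
      have := Algebra.coe_norm_int x
      rw [← this, eq_ratCast]
      push_cast
      rfl
    have hNP : ((N : ℤ) : 𝓞 k₁) ∈ P := by
      have e : ((N : ℤ) : 𝓞 k₁) = x * RingOfIntegers.mapRingHom (s₁ : k₁ →+* k₁) x := by
        apply RingOfIntegers.ext
        have e1 : (((N : ℤ) : 𝓞 k₁) : k₁) = (N : k₁) := map_intCast (algebraMap (𝓞 k₁) k₁) N
        rw [e1, hNx]
        rfl
      rw [e]
      exact P.mul_mem_right _ hxP
    obtain ⟨m, hm⟩ := Abv_int hP h2P hNP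
    have hprod : W.valuation L (j (x : k₁) * s (j (x : k₁))) < 1 := by
      have e : j (x : k₁) * s (j (x : k₁)) = (((2 : 𝓞 L) * ((m : ℤ) : 𝓞 L) : 𝓞 L) : L) := by
        have e1 : (((2 : 𝓞 L) * ((m : ℤ) : 𝓞 L) : 𝓞 L) : L) = 2 * (m : L) := by
          have e2 := map_mul (algebraMap (𝓞 L) L) 2 (m : 𝓞 L)
          rw [map_ofNat, map_intCast] at e2
          exact e2
        rw [hsj, ← map_mul, ← hNx, hm, e1, map_intCast]
        push_cast
        rfl
      rw [e, ← hlt]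
      exact W.asIdeal.mul_mem_right _ h2W
    have hle : ∀ V : HeightOneSpectrum (𝓞 L), V.valuation L (j (x : k₁)) ≤ 1 :=
      fun V => V.valuation_le_one (RingOfIntegers.mapRingHom j x)
    rw [map_mul, hW'] at hprod
    by_cases hc : W.valuation L (j (x : k₁)) < 1
    · left
      show RingOfIntegers.mapRingHom j x ∈ W.asIdeal
      rw [hlt]
      exact hc
    · right
      have hc1 : W.valuation L (j (x : k₁)) = 1 := le_antisymm (hle W) (not_lt.1 hc)
      rw [hc1, one_mul] at hprod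
      show RingOfIntegers.mapRingHom j x ∈ W'.asIdeal
      rw [hlt]
      exact hprod
  rcases Ideal.subset_union.1 hun with h | h
  · exact ⟨W, fun x hx => h hx, hW⟩
  · exact ⟨W', fun x hx => h hx, hW'over⟩

end H68IM
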