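import Pool.Agent.H68.IM.Df

/-!
ROW AbvG (a prime above `w` and above `v`; the general form of the row `Abv`, same proof with `ℚ` replaced by `F₀`).  PROOF.
Let `W` be a prime of `L` over `w` (`H68QS.exists_over`), `v₁` the inverse image of `W` under `mapRingHom j : 𝓞 k₁ → 𝓞 L`. `v` and `v₁` have the same intersection with `𝓞 F₀` (`hvw`, `hij`). `k₁/F₀` is Galois, so there is
`σ : k₁ ≃ₐ[F₀] k₁` with `σ v = v₁` (transitivity): for `x ∈ v`: `σ x ∈ v₁`. `exists_invol` (file `QS/Alg.lean`) for `k₁/F₀` and `L/L0`: involutions `s₁` of `k₁` and `s` of `L`; `Gal(k₁/F₀) = {1, s₁}`. If `σ = 1`, take `W`. Otherwise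
`σ = s₁`; `s₁ θ = -θ`, `s (j θ) = - j θ` (`conj_delta`; `θ ∉ F₀` as `j θ ∉ L0`), so `s (j y) = j (s₁ y)` for all `y ∈ k₁` (`y = a + b θ`, `a, b ∈ F₀`). `exists_conj s W` gives `W'` with `x ∈ W' ↔ s x ∈ W`, the same elements of
`𝓞 L0` as `W`, so `W'` lies over `w`; for `y ∈ v`: `s (j y) = j (s₁ y) ∈ W`, so `j y ∈ W'`.
-/

set_option autoImplicit false

open IsDedekindDomain NumberField WithZero Pool.Agent.H10 H68QS

namespace H68IM

theorem AbvG_conj {F₀ k₁ L0 L : Type} [Field F₀] [Field k₁] [Field L0] [Field L] [CharZero L]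
    [Algebra F₀ k₁] [Algebra L0 L] (i : F₀ →+* L0)
    (j : k₁ →+* L) (hij : ∀ x, algebraMap L0 L (i x) = j (algebraMap F₀ k₁ x)) {θ : k₁}
    {s₁ : k₁ ≃ₐ[F₀] k₁} {s : L ≃ₐ[L0] L} (hs₁ : ∀ x, s₁ (s₁ x) = x)
    (hfix : ∀ x, s₁ x = x → ∃ y, algebraMap F₀ k₁ y = x) (h1 : s₁ θ = -θ)
    (h2 : s (j θ) = -j θ) (h0 : j θ ≠ 0) (y : k₁) : s (j y) = j (s₁ y) := by
  have hq : ∀ a : F₀, s (j (algebraMap F₀ k₁ a)) = j (algebraMap F₀ k₁ a) := by
    intro a
    rw [← hij, s.commutes]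
  obtain ⟨a, ha⟩ := hfix (y + s₁ y) (by rw [map_add, hs₁, add_comm])
  obtain ⟨c, hc⟩ := hfix ((y - s₁ y) * θ) (by rw [map_mul, map_sub, hs₁, h1]; ring)
  have e1 := hq a
  have e2 := hq c
  rw [ha, map_add, map_add] at e1
  rw [hc, map_mul, map_sub, map_mul, map_sub, h2] at e2
  have e3 : s (j y) - s (j (s₁ y)) = -(j y - j (s₁ y)) := by
    apply mul_right_cancel₀ h0
    linear_combination -e2
  have e4 : (2 : L) * s (j y) = 2 * j (s₁ y) := by linear_combination e1 + e3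
  exact mul_left_cancel₀ two_ne_zero e4

theorem exists_above_cm {F₀ k₁ L0 L : Type} [Field F₀] [NumberField F₀] [Field k₁] [NumberField k₁]
    [Field L0] [NumberField L0] [Field L] [NumberField L] [Algebra F₀ k₁] [Algebra L0 L]
    [Algebra.IsQuadraticExtension F₀ k₁] [Algebra.IsQuadraticExtension L0 L] (i : F₀ →+* L0)
    (j : k₁ →+* L) (hij : ∀ x, algebraMap L0 L (i x) = j (algebraMap F₀ k₁ x)) {θ : k₁} {q : F₀}
    (hθ : θ ^ 2 = algebraMap F₀ k₁ q) (hj : ∀ r : L0, algebraMap L0 L r ≠ j θ)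
    (v : HeightOneSpectrum (𝓞 k₁)) (w : HeightOneSpectrum (𝓞 L0))
    (hvw : ∀ x : 𝓞 F₀, algebraMap (𝓞 F₀) (𝓞 k₁) x ∈ v.asIdeal ↔
      RingOfIntegers.mapRingHom i x ∈ w.asIdeal) :
    ∃ W : HeightOneSpectrum (𝓞 L), W.asIdeal.LiesOver w.asIdeal ∧
      ∀ x ∈ v.asIdeal, RingOfIntegers.mapRingHom j x ∈ W.asIdeal := by
  obtain ⟨W, hW⟩ := exists_over (L2 := L) w
  obtain ⟨s₁, hs₁, hN₁, hfix₁⟩ := exists_invol (L := F₀) (L2 := k₁)
  obtain ⟨s, hs, hN, hfix⟩ := exists_invol (L := L0) (L2 := L)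
  have h1 : s₁ θ = -θ := by
    refine conj_delta hfix₁ hθ ?_
    intro r hr
    apply hj (i r)
    rw [hij, hr]
  have h2 : s (j θ) = -j θ := by
    refine conj_delta (D := i q) hfix ?_ hj
    rw [← map_pow, hθ, hij]
  have h0 : j θ ≠ 0 := by
    intro h
    apply hj 0
    rw [h, map_zero]
  have hsj := AbvG_conj i j hij hs₁ hfix₁ h1 h2 h0
  obtain ⟨W', hW', hmem⟩ := exists_conj s W
  have hW'over : W'.asIdeal.LiesOver w.asIdeal := by
    refine ⟨?_⟩
    rw [hW.over]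
    ext y
    exact (hmem y).symm
  have hlt : ∀ (V : HeightOneSpectrum (𝓞 L)) (x : 𝓞 L), x ∈ V.asIdeal ↔
      V.valuation L (x : L) < 1 := by
    intro V x
    rw [V.valuation_lt_one_iff_mem]
  have hun : (v.asIdeal : Set (𝓞 k₁)) ⊆
      ((W.asIdeal.comap (RingOfIntegers.mapRingHom j) : Ideal (𝓞 k₁)) : Set (𝓞 k₁)) ∪
      ((W'.asIdeal.comap (RingOfIntegers.mapRingHom j) : Ideal (𝓞 k₁)) : Set (𝓞 k₁)) := by
    intro x hx
    have hxP : x ∈ v.asIdeal := hx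
    -- the norm
    have hint : IsIntegral ℤ (Algebra.norm F₀ (x : k₁)) :=
      Algebra.isIntegral_norm F₀ (RingOfIntegers.isIntegral_coe x)
    set N : 𝓞 F₀ := ⟨Algebra.norm F₀ (x : k₁), hint⟩ with hNdef
    have hNx : algebraMap F₀ k₁ (N : F₀) = (x : k₁) * s₁ (x : k₁) := hN₁ _
    have hNP : algebraMap (𝓞 F₀) (𝓞 k₁) N ∈ v.asIdeal := by
      have e : algebraMap (𝓞 F₀) (𝓞 k₁) N =
          x * RingOfIntegers.mapRingHom (s₁ : k₁ →+* k₁) x := by
        apply RingOfIntegers.ext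
        exact hNx
      rw [e]
      exact v.asIdeal.mul_mem_right _ hxP
    have hNw := (hvw N).1 hNP
    have hNW : algebraMap (𝓞 L0) (𝓞 L) (RingOfIntegers.mapRingHom i N) ∈ W.asIdeal := by
      rw [hW.over, Ideal.mem_comap] at hNw
      exact hNw
    have hprod : W.valuation L (j (x : k₁) * s (j (x : k₁))) < 1 := by
      have e : j (x : k₁) * s (j (x : k₁)) =
          ((algebraMap (𝓞 L0) (𝓞 L) (RingOfIntegers.mapRingHom i N) : 𝓞 L) : L) := by
        rw [hsj, ← map_mul, ← hNx, ← hij]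
        rfl
      rw [e, ← hlt]
      exact hNW
    have hle : ∀ V : HeightOneSpectrum (𝓞 L), V.valuation L (j (x : k₁)) ≤ 1 :=
      fun V => V.valuation_le_one (RingOfIntegers.mapRingHom j x)
    rw [map_mul, hW'] at hprod
    by_cases hc : W.valuation L (j (x : k₁)) < 1
    · left
      show RingOfIntegers.mapRingHom j x ∈ W.asIdeal
      rw [hlt]
      exact hc
    · right
      have hc1 : W.valuation L (j (x : k₁)) = 1 := le_antisymm (hle W) (not_lt.1 hc)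
      rw [hc1, one_mul] at hprod
      show RingOfIntegers.mapRingHom j x ∈ W'.asIdeal
      rw [hlt]
      exact hprod
  rcases Ideal.subset_union.1 hun with h | h
  · exact ⟨W, hW, fun x hx => h hx⟩
  · exact ⟨W', hW'over, fun x hx => h hx⟩

end H68IM
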