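import Pool.Agent.H68.IM.Df

/-!
# MP_78d38b: towers over a field which contains a CM field, definitions
-/

set_option autoImplicit false

open IsDedekindDomain NumberField

namespace H68IM

/-- The primes of `L` above one of the primes in the set `S` of primes of `k₁`, for a homomorphism
`j : k₁ → L`. -/
def AboveS {k₁ L : Type} [Field k₁] [Field L] (S : Set (HeightOneSpectrum (𝓞 k₁)))
    (j : k₁ →+* L) : Set (HeightOneSpectrum (𝓞 L)) :=
  {w | ∃ v ∈ S, ∀ x ∈ v.asIdeal, RingOfIntegers.mapRingHom j x ∈ w.asIdeal}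

/-- The set `S` of primes of `k₁` contains a prime above each prime of `F₀` above two. -/
def Hits (F₀ : Type) {k₁ : Type} [Field F₀] [Field k₁] [Algebra F₀ k₁]
    (S : Set (HeightOneSpectrum (𝓞 k₁))) : Prop :=
  ∀ u : HeightOneSpectrum (𝓞 F₀), (2 : 𝓞 F₀) ∈ u.asIdeal → ∃ v ∈ S, ∀ x : 𝓞 F₀,
    algebraMap (𝓞 F₀) (𝓞 k₁) x ∈ v.asIdeal ↔ x ∈ u.asIdeal

end H68IM
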