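import Pool.Agent.H68.IM.Asm
import Pool.Agent.H68.IM.Sub
import Pool.Agent.H68.IM.AbvG
import Pool.Agent.H68.IM.Df2

/-!
# MP_78d38b: towers over a CM field, the first step
-/

set_option autoImplicit false
set_option linter.style.haveILetI false

open IsDedekindDomain NumberField WithZero Pool.Agent.H10 H5SW H68QS

namespace H68IM

lemma two_mem_aboveS {k₁ L : Type} [Field k₁] [NumberField k₁] [Field L] [NumberField L]
    {S : Set (HeightOneSpectrum (𝓞 k₁))} (h2 : ∀ v ∈ S, (2 : 𝓞 k₁) ∈ v.asIdeal) {j : k₁ →+* L}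
    {w : HeightOneSpectrum (𝓞 L)} (hw : w ∈ AboveS S j) : (2 : 𝓞 L) ∈ w.asIdeal := by
  obtain ⟨v, hv, hvw⟩ := hw
  have := hvw 2 (h2 v hv)
  rwa [map_ofNat] at this

lemma aboveS_over {k₁ L L2 : Type} [Field k₁] [NumberField k₁] [Field L] [NumberField L]
    [Field L2] [NumberField L2] [Algebra L L2] {S : Set (HeightOneSpectrum (𝓞 k₁))}
    {j : k₁ →+* L} {j2 : k₁ →+* L2}
    (hj : ∀ x, algebraMap L L2 (j x) = j2 x) (w : HeightOneSpectrum (𝓞 L)) (hw : w ∈ AboveS S j)
    (W : HeightOneSpectrum (𝓞 L2)) (hW : W.asIdeal.LiesOver w.asIdeal) : W ∈ AboveS S j2 := by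
  obtain ⟨v, hv, hvw⟩ := hw
  refine ⟨v, hv, ?_⟩
  intro x hx
  have h1 := hvw x hx
  rw [hW.over] at h1
  have h2 : algebraMap (𝓞 L) (𝓞 L2) (RingOfIntegers.mapRingHom j x) ∈ W.asIdeal := h1
  have h3 : algebraMap (𝓞 L) (𝓞 L2) (RingOfIntegers.mapRingHom j x) =
      RingOfIntegers.mapRingHom j2 x := by
    apply RingOfIntegers.coe_injective
    exact hj x
  rwa [h3] at h2

/-- If `L = L0(δ)` has no real embedding, then `δ ^ 2` is totally negative. -/
theorem neg_of_complex {L0 L : Type} [Field L0] [NumberField L0] [Field L] [NumberField L]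
    [Algebra L0 L] (hL : IsEmpty (L →+* ℝ)) {δ : L} {D : L0} (h : δ ^ 2 = algebraMap L0 L D)
    (hgen : IntermediateField.adjoin L0 {δ} = ⊤) (φ : L0 →+* ℝ) : φ D < 0 := by
  by_contra hcon
  rw [not_lt] at hcon
  letI : Algebra L0 ℂ := (Complex.ofRealHom.comp φ).toAlgebra
  let χ : L →ₐ[L0] ℂ := IsAlgClosed.lift
  have h1 : (χ δ) ^ 2 = ((Real.sqrt (φ D) : ℝ) : ℂ) ^ 2 := by
    rw [← map_pow, h, χ.commutes, ← Complex.ofReal_pow, Real.sq_sqrt hcon]
    rfl
  obtain ⟨r, hr⟩ : ∃ r : ℝ, χ δ = (r : ℂ) := by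
    rcases sq_eq_sq_iff_eq_or_eq_neg.mp h1 with h | h
    · exact ⟨_, h⟩
    · exact ⟨-Real.sqrt (φ D), by rw [h]; push_cast; ring⟩
  have hreal : ComplexEmbedding.IsReal (χ : L →+* ℂ) := by
    let M : Subfield L := (RingHom.eqLocusField (ComplexEmbedding.conjugate (χ : L →+* ℂ)) χ)
    have hM : ∀ x, x ∈ M := by
      refine gen_mem hgen M ?_ ?_
      · intro b
        change (starRingEnd ℂ) (χ (algebraMap L0 L b)) = χ (algebraMap L0 L b)
        rw [χ.commutes]
        exact Complex.conj_ofReal _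
      · intro y hy
        have hy' : y = δ := hy
        rw [hy']
        change (starRingEnd ℂ) (χ δ) = χ δ
        rw [hr, Complex.conj_ofReal]
    exact RingHom.ext fun x => hM x
  exact hL.false hreal.embedding

theorem no_real {L : Type} [Field L] [NumberField L] (h : IsTotallyComplex L) :
    IsEmpty (L →+* ℝ) := by
  refine ⟨fun ψ => ?_⟩
  have h1 : ComplexEmbedding.IsReal (Complex.ofRealHom.comp ψ) := by
    refine RingHom.ext fun x => ?_
    exact Complex.conj_ofReal _
  have h2 := h.isComplex (InfinitePlace.mk (Complex.ofRealHom.comp ψ))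
  exact (InfinitePlace.not_isReal_iff_isComplex.mpr h2) (InfinitePlace.isReal_iff.mpr (by
    rw [InfinitePlace.embedding_mk_eq_of_isReal h1]; exact h1))

/-- A totally real number field has a real embedding. -/
theorem exists_real {L : Type} [Field L] [NumberField L] (h : IsTotallyReal L) :
    Nonempty (L →+* ℝ) := by
  obtain ⟨φ⟩ : Nonempty (L →+* ℂ) := inferInstance
  exact ⟨(h.complexEmbedding_isReal φ).embedding⟩

theorem real_of_comp {F K' L' K L : Type} [Field F] [NumberField F] [Field K'] [Field L']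
    [NumberField L'] [Field K] [NumberField K] [Field L] [NumberField L] [Algebra K' L']
    [Algebra K L] (C : Comp F K' L' K L) (hF : IsTotallyReal F) (hL' : IsTotallyReal L') :
    IsTotallyReal L := by
  haveI h1 : IsTotallyReal ((algebraMap K L).comp C.f).fieldRange :=
    IsTotallyReal.ofRingEquiv (((algebraMap K L).comp C.f).rangeRestrictFieldEquiv)
  haveI h2 : IsTotallyReal C.h.fieldRange :=
    IsTotallyReal.ofRingEquiv (C.h.rangeRestrictFieldEquiv)
  have h3 : IsTotallyReal
      ((((algebraMap K L).comp C.f).fieldRange ⊔ C.h.fieldRange : Subfield L)) := inferInstance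
  have h4 : ((((algebraMap K L).comp C.f).fieldRange ⊔ C.h.fieldRange : Subfield L)) = ⊤ := by
    rw [eq_top_iff]
    intro x _
    refine gen_mem C.genL _ (rat_mem _) ?_ x
    rintro _ (⟨y, rfl⟩ | ⟨y, rfl⟩)
    · exact (le_sup_left (a := ((algebraMap K L).comp C.f).fieldRange)
        (b := C.h.fieldRange)) ⟨y, rfl⟩
    · exact (le_sup_right (a := ((algebraMap K L).comp C.f).fieldRange)
        (b := C.h.fieldRange)) ⟨y, rfl⟩
  rw [h4] at h3
  exact isTotallyReal_top_iff.mp h3

end H68IM
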