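import Pool.Agent.H68.QS.Idx

/-!
ROW Idx (a subfield of index two which contains a given subfield).  PROOF.
Copy of the proof of `H68QS.exists_index_two` (file `Pool/Agent/H68/QS/Idx.lean`), with the Sylow step done inside the subgroup `S` = automorphisms of `F` which fix the image of `k₁`:
`F` Galois over the rationals of degree `2 ^ r`, `e : k →+* F`, `φ = e.toRatAlgHom`, `E = φ.fieldRange`, `φ₁ = (e.comp j).toRatAlgHom`, `E₁ = φ₁.fieldRange ≤ E`, `H = E.fixingSubgroup ≤ S = E₁.fixingSubgroup`.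
`Nat.card H = [F : E] = 2 ^ s`, `Nat.card S = [F : E₁] = 2 ^ t`, `s < t` as `[E : ℚ] = [k : ℚ] ≠ [k₁ : ℚ] = [E₁ : ℚ]` and `H ≤ S`. `Sylow.exists_subgroup_card_pow_succ` for the group `S` and the subgroup `H.subgroupOf S` gives a subgroup
of `S` of order `2 ^ (s+1)` which contains it; let `H'` be its image (`Subgroup.map S.subtype`) in `Gal(F/ℚ)`: `H ≤ H' ≤ S`, `Nat.card H' = 2 ^ (s+1)`. `E' = fixedField H'`: `E₁ ≤ E' ≤ E`, `F' = E'.comap φ`.
-/

set_option autoImplicit false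

open IsDedekindDomain NumberField H68QS

namespace H68IM

theorem exists_index_two_over {k₁ k : Type} [Field k₁] [NumberField k₁] [Field k] [NumberField k]
    (j : k₁ →+* k) (h : TwoPower k) (hk : Module.finrank ℚ k ≠ Module.finrank ℚ k₁) :
    ∃ F : IntermediateField ℚ k, Module.finrank F k = 2 ∧ ∀ x, j x ∈ F := by
  obtain ⟨F, _, _, hG, ⟨r, hr⟩, ⟨e⟩⟩ := h
  obtain ⟨φ, hφ⟩ : ∃ φ : k →ₐ[ℚ] F, φ = e.toRatAlgHom := ⟨_, rfl⟩
  obtain ⟨φ₁, hφ₁⟩ : ∃ φ₁ : k₁ →ₐ[ℚ] F, φ₁ = (e.comp j).toRatAlgHom := ⟨_, rfl⟩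
  have hcomp : ∀ x, φ₁ x = φ (j x) := by
    intro x
    rw [hφ, hφ₁]
    rfl
  obtain ⟨E, hE⟩ : ∃ E : IntermediateField ℚ F, E = φ.fieldRange := ⟨_, rfl⟩
  obtain ⟨E₁, hE₁⟩ : ∃ E₁ : IntermediateField ℚ F, E₁ = φ₁.fieldRange := ⟨_, rfl⟩
  have hE1E : E₁ ≤ E := by
    intro z hz
    rw [hE₁] at hz
    obtain ⟨x, rfl⟩ := hz
    rw [hE]
    exact ⟨j x, (hcomp x).symm⟩
  have hkE : Module.finrank ℚ k = Module.finrank ℚ E := by
    rw [hE]
    exact LinearEquiv.finrank_eq (AlgHom.equivFieldRange φ).toLinearEquiv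
  have hkE₁ : Module.finrank ℚ k₁ = Module.finrank ℚ E₁ := by
    rw [hE₁]
    exact LinearEquiv.finrank_eq (AlgHom.equivFieldRange φ₁).toLinearEquiv
  have hmul : Module.finrank ℚ E * Module.finrank E F = 2 ^ r := by
    rw [Module.finrank_mul_finrank, hr]
  have hmul₁ : Module.finrank ℚ E₁ * Module.finrank E₁ F = 2 ^ r := by
    rw [Module.finrank_mul_finrank, hr]
  obtain ⟨s, hsr, hs⟩ := (Nat.dvd_prime_pow Nat.prime_two).1 (Dvd.intro_left _ hmul)
  obtain ⟨t, htr, ht⟩ := (Nat.dvd_prime_pow Nat.prime_two).1 (Dvd.intro_left _ hmul₁)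
  have hrel := IntermediateField.relfinrank_mul_finrank_top hE1E
  have hst : s < t := by
    have h1 : 2 ^ s ∣ 2 ^ t := by
      rw [← hs, ← ht, ← hrel]
      exact Dvd.intro_left _ rfl
    have h2 : s ≤ t := (Nat.pow_dvd_pow_iff_le_right (by norm_num)).1 h1
    rcases h2.lt_or_eq with h3 | h3
    · exact h3
    · exfalso
      apply hk
      rw [hkE, hkE₁]
      rw [hs, h3] at hmul
      rw [ht] at hmul₁
      exact Nat.eq_of_mul_eq_mul_right (pow_pos two_pos t) (by rw [hmul, hmul₁])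
  obtain ⟨H, hH⟩ : ∃ H : Subgroup (F ≃ₐ[ℚ] F), H = E.fixingSubgroup := ⟨_, rfl⟩
  obtain ⟨S, hS⟩ : ∃ S : Subgroup (F ≃ₐ[ℚ] F), S = E₁.fixingSubgroup := ⟨_, rfl⟩
  have hHS : H ≤ S := by
    rw [hH, hS]
    exact IntermediateField.fixingSubgroup_antitone hE1E
  have hcard : Nat.card (H.subgroupOf S) = 2 ^ s := by
    rw [Nat.card_congr (Subgroup.subgroupOfEquivOfLe hHS).toEquiv, hH,
      IsGalois.card_fixingSubgroup_eq_finrank, hs]
  have hcardS : Nat.card S = 2 ^ t := by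
    rw [hS, IsGalois.card_fixingSubgroup_eq_finrank, ht]
  have hfact : Fact (Nat.Prime 2) := ⟨Nat.prime_two⟩
  have hfinS : Finite S := Nat.finite_of_card_ne_zero (by
    rw [hcardS]
    exact (pow_pos two_pos t).ne')
  obtain ⟨H'', hH'', hle''⟩ := Sylow.exists_subgroup_card_pow_succ (p := 2) (n := s)
    (G := S) (by
      rw [hcardS]
      exact pow_dvd_pow 2 hst) hcard
  obtain ⟨H', hH'def⟩ : ∃ H' : Subgroup (F ≃ₐ[ℚ] F), H' = H''.map S.subtype := ⟨_, rfl⟩
  have hH' : Nat.card H' = 2 ^ (s + 1) := by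
    rw [hH'def, Nat.card_congr
      (Subgroup.equivMapOfInjective H'' S.subtype S.subtype_injective).symm.toEquiv, hH'']
  have hle : E.fixingSubgroup ≤ H' := by
    intro g hg
    rw [← hH] at hg
    rw [hH'def]
    exact ⟨⟨g, hHS hg⟩, hle'' hg, rfl⟩
  have hleS : H' ≤ E₁.fixingSubgroup := by
    rw [hH'def, ← hS]
    exact Subgroup.map_subtype_le H''
  obtain ⟨E', hE'⟩ : ∃ E' : IntermediateField ℚ F, E' = IntermediateField.fixedField H' :=
    ⟨_, rfl⟩
  have hfin' : Module.finrank E' F = 2 ^ (s + 1) := by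
    rw [hE', IntermediateField.finrank_fixedField_eq_card, hH']
  have hEE : E' ≤ E := by
    rw [hE', ← IsGalois.fixedField_fixingSubgroup E]
    exact IntermediateField.fixedField_antitone hle
  have hE1E' : E₁ ≤ E' := by
    rw [hE', ← IsGalois.fixedField_fixingSubgroup E₁]
    exact IntermediateField.fixedField_antitone hleS
  refine ⟨IntermediateField.comap φ E', ?_, ?_⟩
  · rw [IntermediateField.finrank_comap, ← hE]
    have h2 := IntermediateField.relfinrank_mul_finrank_top hEE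
    rw [hs, hfin', pow_succ, mul_comm (2 ^ s)] at h2
    exact Nat.eq_of_mul_eq_mul_right (pow_pos two_pos s) h2
  · intro x
    change φ (j x) ∈ E'
    rw [← hcomp]
    apply hE1E'
    rw [hE₁]
    exact ⟨x, rfl⟩

end H68IM
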