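import Pool.Agent.H68.IM.Df

/-!
# MP_78d38b: the quadratic step for sets of primes above two
-/

set_option autoImplicit false
set_option linter.style.haveILetI false

open IsDedekindDomain NumberField WithZero Pool.Agent.H10 H68QS

namespace H68IM

section

variable {K L K2 L2 : Type} [Field K] [NumberField K] [Field L] [NumberField L]
  [Field K2] [NumberField K2] [Field L2] [NumberField L2]
  [Algebra K L] [Algebra K K2] [Algebra K L2] [Algebra L L2] [Algebra K2 L2]
  [IsScalarTower K L L2] [IsScalarTower K K2 L2]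
  [Algebra.IsQuadraticExtension K K2] [Algebra.IsQuadraticExtension L L2]

/-- Conclusion of the descent: the element of the base is a square. -/
lemma square_of_core {x : L2} {t : L} {z : L2} (hxt : x = algebraMap L L2 t * z ^ 2)
    (h : IsSquare t) : IsSquare x := by
  obtain ⟨u, hu⟩ := h
  refine ⟨algebraMap L L2 u * z, ?_⟩
  rw [hxt, hu, map_mul]
  ring

/-- Local descent from `x` to `t`. -/
lemma local_core (hunr : ∀ w : HeightOneSpectrum (𝓞 L2), (2 : 𝓞 L2) ∈ w.asIdeal →
      (2 : 𝓞 L2) ∉ w.asIdeal ^ 2) {x : L2} {t : L} {z : L2} (ht : t ≠ 0) (hz : z ≠ 0)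
    (hxt : x = algebraMap L L2 t * z ^ 2)
    (hevt : ∀ w : HeightOneSpectrum (𝓞 L), Even (log (w.valuation L t)))
    {w : HeightOneSpectrum (𝓞 L)} {W : HeightOneSpectrum (𝓞 L2)} [W.asIdeal.LiesOver w.asIdeal]
    (h2W : (2 : 𝓞 L2) ∈ W.asIdeal)
    (h : ∃ t m : L2, t ≠ 0 ∧ W.valuation L2 m = 1 ∧
        W.valuation L2 (x * t ^ 2 - m ^ 2) ≤ W.valuation L2 4) :
    ∃ t₀ m : L, t₀ ≠ 0 ∧ w.valuation L m = 1 ∧
        w.valuation L (t * t₀ ^ 2 - m ^ 2) ≤ w.valuation L 4 := by
  have hv2 := val_two_of_unram h2W (hunr W h2W)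
  obtain ⟨t₁, m₁, ht₁, hm₁, h⟩ := h
  refine descend_two (w := w) (W := W) hv2 ht ?_ ⟨z * t₁, m₁, mul_ne_zero hz ht₁, hm₁, ?_⟩
  · rw [← HeightOneSpectrum.valuation_liesOver (K := L) L2 w W, log_pow, nsmul_eq_mul]
    exact (hevt w).mul_left _
  · have : algebraMap L L2 t * (z * t₁) ^ 2 - m₁ ^ 2 = x * t₁ ^ 2 - m₁ ^ 2 := by
      rw [hxt]; ring
    rw [this]
    exact h

omit [NumberField K] [NumberField L] [Field K2] [NumberField K2] [NumberField L2] [Algebra K L]
  [Algebra K K2] [Algebra K L2] [Algebra K2 L2] [IsScalarTower K L L2] [IsScalarTower K K2 L2]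
  [Algebra.IsQuadraticExtension K K2] [Algebra.IsQuadraticExtension L L2] [Field K] in
lemma two_over {w : HeightOneSpectrum (𝓞 L)} (hw : (2 : 𝓞 L) ∈ w.asIdeal)
    {W : HeightOneSpectrum (𝓞 L2)} (hW : W.asIdeal.LiesOver w.asIdeal) :
    (2 : 𝓞 L2) ∈ W.asIdeal := by
  rw [hW.over] at hw
  have : algebraMap (𝓞 L) (𝓞 L2) 2 ∈ W.asIdeal := hw
  rwa [map_ofNat] at this

/-- The quadratic step for a set of primes above two. -/
theorem noNewOn_quad (hodd : Odd (Module.finrank K L)) {D : 𝓞 K} {δ : K2}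
    (hδ : δ ^ 2 = algebraMap K K2 D) (hδ' : ∀ r : K, algebraMap K K2 r ≠ δ)
    (hbad : ∀ v : HeightOneSpectrum (𝓞 K), 2 * D ∈ v.asIdeal → UniqueOver K L v.asIdeal)
    (hunr : ∀ w : HeightOneSpectrum (𝓞 L2), (2 : 𝓞 L2) ∈ w.asIdeal →
      (2 : 𝓞 L2) ∉ w.asIdeal ^ 2)
    {T : Set (HeightOneSpectrum (𝓞 L))} {T2 : Set (HeightOneSpectrum (𝓞 L2))}
    (h2T : ∀ w ∈ T, (2 : 𝓞 L) ∈ w.asIdeal)
    (hT : ∀ w ∈ T, ∀ W : HeightOneSpectrum (𝓞 L2), W.asIdeal.LiesOver w.asIdeal → W ∈ T2)
    (R : NoNewOn K L T) : NoNewOn K2 L2 T2 := by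
  intro x hx hev hN hloc
  obtain ⟨s, hss, hNs, -⟩ := exists_invol (L := L) (L2 := L2)
  have hnx : Algebra.norm L x ≠ 0 := by rw [Ne, Algebra.norm_eq_zero_iff]; exact hx
  have hevn := fun w => even_norm (L := L) hx hev w
  have hsq : IsSquare (Algebra.norm L x) := by
    refine R _ hnx hevn (norm_norm_sq (K2 := K2) hN) ?_
    intro w hw
    obtain ⟨W, hW⟩ := exists_over (L2 := L2) w
    have h2W := two_over (h2T w hw) hW
    have hv2 := val_two_of_unram h2W (hunr W h2W)
    obtain ⟨W', hW', hmem⟩ := exists_conj s W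
    have hW'over : W'.asIdeal.LiesOver w.asIdeal := by
      refine ⟨?_⟩
      rw [hW.over]
      ext y
      exact (hmem y).symm
    obtain ⟨t, m, ht, hm, h⟩ := hloc W (hT w hw W hW)
    obtain ⟨t', m', ht', hm', h'⟩ := hloc W' (hT w hw W' hW'over)
    have h4 : W.valuation L2 4 < 1 := by
      have : (4 : L2) = 2 * 2 := by norm_num
      rw [this, map_mul, hv2, ← exp_add, ← exp_zero, exp_lt_exp]
      norm_num
    have hs4 : W'.valuation L2 4 = W.valuation L2 4 := by
      rw [← hW', map_ofNat]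
    rw [← hW'] at hm'
    rw [hs4, ← hW', map_sub, map_mul, map_pow, map_pow] at h'
    have hst' : s t' ≠ 0 := by rw [Ne, map_eq_zero]; exact ht'
    have hxt : W.valuation L2 (x * t ^ 2) = 1 := by
      have : x * t ^ 2 = (x * t ^ 2 - m ^ 2) + m ^ 2 := by ring
      rw [this, Valuation.map_add_eq_of_lt_right, map_pow, hm, one_pow]
      rw [map_pow, hm, one_pow]
      exact h.trans_lt h4
    refine descend_two (w := w) (W := W) hv2 hnx ?_ ⟨t * s t', m * s m', mul_ne_zero ht hst', ?_, ?_⟩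
    · rw [hNs, map_mul, log_mul ((Valuation.ne_zero_iff _).mpr hx)
        ((Valuation.ne_zero_iff _).mpr (by rw [Ne, map_eq_zero]; exact hx))]
      exact (hev W).add (even_conj s hev W)
    · rw [map_mul, hm, hm', one_mul]
    · rw [hNs]
      have : x * s x * (t * s t') ^ 2 - (m * s m') ^ 2 =
          (x * t ^ 2) * (s x * s t' ^ 2 - s m' ^ 2) + (s m') ^ 2 * (x * t ^ 2 - m ^ 2) := by ring
      rw [this]
      refine (Valuation.map_add _ _ _).trans (max_le ?_ ?_)
      · rw [map_mul, hxt, one_mul]; exact h'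
      · rw [map_mul, map_pow, hm', one_pow, one_mul]; exact h
  obtain ⟨t, z, ht, hz, hxt, hNt, hevt⟩ := core hodd hδ hδ' hbad hx hev hN hsq
  refine square_of_core hxt (R t ht hevt hNt ?_)
  intro w hw
  obtain ⟨W, hW⟩ := exists_over (L2 := L2) w
  exact local_core hunr ht hz hxt hevt (two_over (h2T w hw) hW) (hloc W (hT w hw W hW))

/-- The first step: from a totally real `L` to a quadratic extension without real embeddings. It
is enough that `T2` contains a prime above each prime above two. -/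
theorem noNewOn_cm (hodd : Odd (Module.finrank K L)) {D : 𝓞 K} {δ : K2}
    (hδ : δ ^ 2 = algebraMap K K2 D) (hδ' : ∀ r : K, algebraMap K K2 r ≠ δ)
    (hbad : ∀ v : HeightOneSpectrum (𝓞 K), 2 * D ∈ v.asIdeal → UniqueOver K L v.asIdeal)
    (hneg : ∀ φ : L →+* ℝ, φ (algebraMap K L D) < 0)
    (hunr : ∀ w : HeightOneSpectrum (𝓞 L2), (2 : 𝓞 L2) ∈ w.asIdeal →
      (2 : 𝓞 L2) ∉ w.asIdeal ^ 2)
    {T2 : Set (HeightOneSpectrum (𝓞 L2))}
    (hT : ∀ w : HeightOneSpectrum (𝓞 L), (2 : 𝓞 L) ∈ w.asIdeal →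
      ∃ W ∈ T2, W.asIdeal.LiesOver w.asIdeal)
    (R1 : NoNewPositive K L) (R2 : NoNewUnramified K L) : NoNewOn K2 L2 T2 := by
  intro x hx hev hN hloc
  obtain ⟨s, hss, hNs, hfix⟩ := exists_invol (L := L) (L2 := L2)
  have hnx : Algebra.norm L x ≠ 0 := by rw [Ne, Algebra.norm_eq_zero_iff]; exact hx
  have hsq : IsSquare (Algebra.norm L x) := by
    refine R1 _ hnx (fun w => even_norm hx hev w) (norm_norm_sq (K2 := K2) hN) ?_
    intro φ
    have hδL2 : (algebraMap K2 L2 δ) ^ 2 = algebraMap L L2 (algebraMap K L D) := by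
      rw [← map_pow, hδ, ← IsScalarTower.algebraMap_apply K K2 L2,
        ← IsScalarTower.algebraMap_apply K L L2]
    have hδL : ∀ r : L, algebraMap L L2 r ≠ algebraMap K2 L2 δ := by
      intro r hr
      apply no_root hodd hδ hδ' r
      apply (algebraMap L L2).injective
      rw [map_pow, hr, hδL2]
    have hsδ := conj_delta hfix hδL2 hδL
    have hδ0 : algebraMap K2 L2 δ ≠ 0 := by
      intro h0
      exact hδL 0 (by rw [map_zero, h0])
    obtain ⟨a, ha⟩ := hfix ((x + s x) / 2) (by rw [map_div₀, map_add, hss, map_ofNat]; ring)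
    obtain ⟨b, hb⟩ := hfix ((x - s x) / (2 * algebraMap K2 L2 δ)) (by
      rw [map_div₀, map_sub, hss, map_mul, hsδ, map_ofNat, mul_neg, div_neg, ← neg_div]
      ring)
    have hw : x = algebraMap L L2 a + algebraMap L L2 b * algebraMap K2 L2 δ := by
      rw [ha, hb]
      field_simp
      ring
    have hnorm : Algebra.norm L x = a ^ 2 - algebraMap K L D * b ^ 2 := by
      apply (algebraMap L L2).injective
      rw [hNs]
      have h1 : s x = algebraMap L L2 a - algebraMap L L2 b * algebraMap K2 L2 δ := by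
        conv_lhs => rw [hw]
        rw [map_add, map_mul, s.commutes, s.commutes, hsδ]
        ring
      rw [h1]
      conv_lhs => rw [hw]
      rw [map_sub, map_mul, map_pow, map_pow, ← hδL2]
      ring
    rw [hnorm, map_sub, map_mul, map_pow, map_pow]
    have hab : a ≠ 0 ∨ b ≠ 0 := by
      by_contra hcon
      push Not at hcon
      apply hx
      rw [hw, hcon.1, hcon.2, map_zero, zero_mul, add_zero]
    have hn := hneg φ
    rcases hab with h | h
    · have h1 : φ a ≠ 0 := by rw [Ne, map_eq_zero]; exact h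
      have h2 : 0 < (φ a) ^ 2 := by positivity
      have h3 : 0 ≤ -(φ (algebraMap K L D)) * (φ b) ^ 2 :=
        mul_nonneg (by linarith) (sq_nonneg _)
      linarith
    · have h1 : φ b ≠ 0 := by rw [Ne, map_eq_zero]; exact h
      have h2 : 0 ≤ (φ a) ^ 2 := sq_nonneg _
      have h3 : 0 < -(φ (algebraMap K L D)) * (φ b) ^ 2 :=
        mul_pos (by linarith) (by positivity)
      linarith
  obtain ⟨t, z, ht, hz, hxt, hNt, hevt⟩ := core hodd hδ hδ' hbad hx hev hN hsq
  refine square_of_core hxt (R2 t ht hevt hNt ?_)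
  intro w hw
  obtain ⟨W, hWT, hW⟩ := hT w hw
  exact local_core hunr ht hz hxt hevt (two_over hw hW) (hloc W hWT)

end

end H68IM
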