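import Pool.Agent.H68.QS.Asm
import Pool.Agent.H68.IM.Main
import Pool.Agent.H68.IM.Idx
import Pool.Agent.H68.IM.Abv
import Pool.Agent.H68.IM.Dec
import Pool.Agent.H68.IM.Emb

/-!
# MP_78d38b: towers over a non-real field, assembly
-/

set_option autoImplicit false
set_option linter.style.haveILetI false

open IsDedekindDomain NumberField WithZero Pool.Agent.H10 H5SW H68QS

namespace H68IM

theorem GoodI.weaken {K L : Type} [Field K] [NumberField K] [Field L] [NumberField L]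
    [Algebra K L] {M M' : ℤ} {TP TQ : Set (HeightOneSpectrum (𝓞 L))} (hMM : M ∣ M')
    (G : GoodI M' K L TP TQ) : GoodI M K L TP TQ := by
  refine ⟨G.gal, G.odd, G.RP, G.RQ, fun v hv => G.bad v ?_, G.three⟩
  obtain ⟨c, rfl⟩ := hMM
  rw [Int.cast_mul]
  exact Ideal.mul_mem_right _ _ hv

section step

variable {K L K2 L2 : Type} [Field K] [NumberField K] [Field L] [NumberField L]
  [Field K2] [NumberField K2] [Field L2] [NumberField L2]
  [Algebra K L] [Algebra K K2] [Algebra K L2] [Algebra L L2] [Algebra K2 L2]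
  [IsScalarTower K L L2] [IsScalarTower K K2 L2] [Algebra.IsQuadraticExtension K K2]

/-- The part of the quadratic step which does not involve new classes. -/
theorem step_aux {D : 𝓞 K} {δ : K2} (hδ : δ ^ 2 = algebraMap K K2 D)
    (hδ' : ∀ r : K, algebraMap K K2 r ≠ δ)
    (hgenL : IntermediateField.adjoin L {algebraMap K2 L2 δ} = ⊤)
    (hgen : IntermediateField.adjoin K2 (Set.range (algebraMap L L2)) = ⊤)
    [IsGalois K L] (hodd : Odd (Module.finrank K L)) {M M' : ℤ} (hMM : M ∣ M')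
    (bad : ∀ v : HeightOneSpectrum (𝓞 K), (M' : 𝓞 K) ∈ v.asIdeal → UniqueOver K L v.asIdeal)
    (three : ¬ 3 ∣ Module.finrank K L ∨ ∀ v : HeightOneSpectrum (𝓞 K), (2 : 𝓞 K) ∈ v.asIdeal →
      ∃ c : 𝓞 K, c ^ 3 + c ^ 2 + 1 ∈ v.asIdeal) :
    Algebra.IsQuadraticExtension L L2 ∧ IsGalois K2 L2 ∧ Odd (Module.finrank K2 L2) ∧
    (∀ v : HeightOneSpectrum (𝓞 K2), (M : 𝓞 K2) ∈ v.asIdeal → UniqueOver K2 L2 v.asIdeal) ∧
    (¬ 3 ∣ Module.finrank K2 L2 ∨ ∀ v : HeightOneSpectrum (𝓞 K2), (2 : 𝓞 K2) ∈ v.asIdeal →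
      ∃ c : 𝓞 K2, c ^ 3 + c ^ 2 + 1 ∈ v.asIdeal) := by
  have hδL2 : (algebraMap K2 L2 δ) ^ 2 = algebraMap L L2 (algebraMap K L D) := by
    rw [← map_pow, hδ, ← IsScalarTower.algebraMap_apply K K2 L2,
      ← IsScalarTower.algebraMap_apply K L L2]
  have hδL : ∀ r : L, algebraMap L L2 r ≠ algebraMap K2 L2 δ := by
    intro r hr
    apply no_root hodd hδ hδ' r
    apply (algebraMap L L2).injective
    rw [map_pow, hr, hδL2]
  have hq : Algebra.IsQuadraticExtension L L2 := quad_of_adjoin hδL2 hδL hgenL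
  haveI := hq
  have hfr : Module.finrank K2 L2 = Module.finrank K L := finrank_up
  haveI hgal : IsGalois K2 L2 := galois_up (K := K) (L := L) hgen
  have hodd2 : Odd (Module.finrank K2 L2) := by rw [hfr]; exact hodd
  have below : ∀ v2 : HeightOneSpectrum (𝓞 K2), v2.asIdeal.under (𝓞 K) ≠ ⊥ := fun v2 =>
    Ideal.IsIntegral.comap_ne_bot _ v2.ne_bot
  refine ⟨hq, hgal, hodd2, ?_, ?_⟩
  · intro v2 hv2
    let v : HeightOneSpectrum (𝓞 K) := ⟨v2.asIdeal.under (𝓞 K), inferInstance, below v2⟩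
    refine unique_quad (K := K) (L := L) hodd2 (v := v) Ideal.map_comap_le (bad v ?_)
    change algebraMap (𝓞 K) (𝓞 K2) (M' : 𝓞 K) ∈ v2.asIdeal
    rw [map_intCast]
    obtain ⟨c, rfl⟩ := hMM
    rw [Int.cast_mul]
    exact Ideal.mul_mem_right _ _ hv2
  · rw [hfr]
    rcases three with h | h
    · exact Or.inl h
    · right
      intro v2 hv2
      obtain ⟨c, hc⟩ := h ⟨v2.asIdeal.under (𝓞 K), inferInstance, below v2⟩ (by
        change algebraMap (𝓞 K) (𝓞 K2) 2 ∈ v2.asIdeal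
        rw [map_ofNat]
        exact hv2)
      refine ⟨algebraMap (𝓞 K) (𝓞 K2) c, ?_⟩
      have h1 : algebraMap (𝓞 K) (𝓞 K2) (c ^ 3 + c ^ 2 + 1) ∈ v2.asIdeal := hc
      rwa [map_add, map_add, map_pow, map_pow, map_one] at h1

/-- The quadratic step for the properties of a layer. -/
theorem goodI_step {D : 𝓞 K} {δ : K2} (hδ : δ ^ 2 = algebraMap K K2 D)
    (hδ' : ∀ r : K, algebraMap K K2 r ≠ δ)
    (hgenL : IntermediateField.adjoin L {algebraMap K2 L2 δ} = ⊤)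
    (hgen : IntermediateField.adjoin K2 (Set.range (algebraMap L L2)) = ⊤)
    (hunr : Unr2 L2) {M M' : ℤ} (hMM : M ∣ M')
    (hbad : ∀ v : HeightOneSpectrum (𝓞 K), 2 * D ∈ v.asIdeal → (M' : 𝓞 K) ∈ v.asIdeal)
    {TP TQ : Set (HeightOneSpectrum (𝓞 L))} {TP2 TQ2 : Set (HeightOneSpectrum (𝓞 L2))}
    (h2P : ∀ w ∈ TP, (2 : 𝓞 L) ∈ w.asIdeal) (h2Q : ∀ w ∈ TQ, (2 : 𝓞 L) ∈ w.asIdeal)
    (hP : ∀ w ∈ TP, ∀ W : HeightOneSpectrum (𝓞 L2), W.asIdeal.LiesOver w.asIdeal → W ∈ TP2)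
    (hQ : ∀ w ∈ TQ, ∀ W : HeightOneSpectrum (𝓞 L2), W.asIdeal.LiesOver w.asIdeal → W ∈ TQ2)
    (G : GoodI M' K L TP TQ) : GoodI M K2 L2 TP2 TQ2 := by
  haveI := G.gal
  obtain ⟨hq, hgal, hodd, hb, h3⟩ := step_aux hδ hδ' hgenL hgen G.odd hMM G.bad G.three
  haveI := hq
  exact ⟨hgal, hodd,
    noNewOn_quad G.odd hδ hδ' (fun v hv => G.bad v (hbad v hv)) hunr h2P hP G.RP,
    noNewOn_quad G.odd hδ hδ' (fun v hv => G.bad v (hbad v hv)) hunr h2Q hQ G.RQ, hb, h3⟩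

end step

lemma two_mem_above {k₁ L : Type} [Field k₁] [NumberField k₁] [Field L] [NumberField L]
    {P : Ideal (𝓞 k₁)} (h2 : (2 : 𝓞 k₁) ∈ P) {j : k₁ →+* L} {w : HeightOneSpectrum (𝓞 L)}
    (hw : w ∈ Above P j) : (2 : 𝓞 L) ∈ w.asIdeal := by
  have := hw 2 h2
  rwa [map_ofNat] at this

lemma above_over {k₁ L L2 : Type} [Field k₁] [NumberField k₁] [Field L] [NumberField L]
    [Field L2] [NumberField L2] [Algebra L L2] {P : Ideal (𝓞 k₁)} {j : k₁ →+* L} {j2 : k₁ →+* L2}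
    (hj : ∀ x, algebraMap L L2 (j x) = j2 x) (w : HeightOneSpectrum (𝓞 L)) (hw : w ∈ Above P j)
    (W : HeightOneSpectrum (𝓞 L2)) (hW : W.asIdeal.LiesOver w.asIdeal) : W ∈ Above P j2 := by
  intro x hx
  have h1 := hw x hx
  rw [hW.over] at h1
  have h2 : algebraMap (𝓞 L) (𝓞 L2) (RingOfIntegers.mapRingHom j x) ∈ W.asIdeal := h1
  have h3 : algebraMap (𝓞 L) (𝓞 L2) (RingOfIntegers.mapRingHom j x) =
      RingOfIntegers.mapRingHom j2 x := by
    apply RingOfIntegers.coe_injective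
    exact hj x
  rwa [h3] at h2

end H68IM
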