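import Pool.Agent.H68.IM.Base

/-!
# MP_78d38b: towers over a CM field, the layers over the CM field itself
-/

set_option autoImplicit false
set_option linter.style.haveILetI false

open IsDedekindDomain NumberField WithZero Pool.Agent.H10 H5SW H68QS

namespace H68IM

/-- The layers over a CM field `k₁` with totally real subfield `F₀`. -/
theorem goodI_base {p k0 : ℕ} [Fact p.Prime] (hp2 : p ≠ 2) (hNV : NV p k0) {F₀ k₁ : Type}
    [Field F₀] [NumberField F₀] [Field k₁] [NumberField k₁] [Algebra F₀ k₁]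
    [Algebra.IsQuadraticExtension F₀ k₁] (hF₀ : IsTotallyReal F₀) (him : IsTotallyComplex k₁)
    {S S' : Set (HeightOneSpectrum (𝓞 k₁))} (hS : Hits F₀ S) (hS' : Hits F₀ S') {k : Type}
    [Field k] [NumberField k] (j : k₁ →+* k) (h2p : TwoPower k)
    (hk : Module.finrank ℚ k = Module.finrank ℚ k₁) {M : ℤ} (hM : M ≠ 0) : ∃ N : ℕ,
    ∀ (K' L' K L : Type) [Field K'] [NumberField K'] [Field L'] [NumberField L'] [Field K]
      [NumberField K] [Field L] [NumberField L] [Algebra K' L'] [Algebra K L]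
      (C : Comp k K' L' K L), IsR p L' → (∃ i : ℕ, Module.finrank K' L' = p ^ i) →
      p ^ N ∣ Module.finrank ℚ K' → Unr2 L →
      GoodI M K L (AboveS S (((algebraMap K L).comp C.f).comp j))
        (AboveS S' (((algebraMap K L).comp C.f).comp j)) := by
  obtain ⟨D, θ, hD0, hθ, hadj⟩ := exists_delta (k₁ := F₀) (k := k₁)
    (Algebra.IsQuadraticExtension.finrank_eq_two F₀ k₁)
  -- the real subfield as a subfield of `k₁`
  let φ₀ : F₀ →ₐ[ℚ] k₁ := (algebraMap F₀ k₁).toRatAlgHom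
  have hφ₀ : ∀ x, φ₀ x = algebraMap F₀ k₁ x := fun x => rfl
  let F : IntermediateField ℚ k₁ := φ₀.fieldRange
  let e : F₀ →+* F :=
    { toFun := fun x => ⟨algebraMap F₀ k₁ x, ⟨x, rfl⟩⟩
      map_one' := Subtype.ext (map_one _)
      map_mul' := fun x y => Subtype.ext (map_mul _ _ _)
      map_zero' := Subtype.ext (map_zero _)
      map_add' := fun x y => Subtype.ext (map_add _ _ _) }
  have he : ∀ x, ((e x : F) : k₁) = algebraMap F₀ k₁ x := fun x => rfl
  have hes : Function.Surjective e := by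
    rintro ⟨y, ⟨x, hx⟩⟩
    exact ⟨x, Subtype.ext hx⟩
  have hFreal : IsTotallyReal F := IsTotallyReal.ofRingEquiv
    (RingEquiv.ofBijective e ⟨e.injective, hes⟩)
  have hFadj : IntermediateField.adjoin F {θ} = ⊤ := by
    refine adj_top fun M hB hM => ?_
    exact gen_mem hadj M (fun b => hB (e b)) hM
  have h2pF : TwoPower F := (h2p.of_hom j).of_hom F.val.toRingHom
  set nD : ℕ := Ideal.absNorm (Ideal.span {D}) with hnD
  have hnD0 : (nD : ℤ) ≠ 0 := by
    rw [Ne, Nat.cast_eq_zero, hnD, Ideal.absNorm_eq_zero_iff, Ideal.span_singleton_eq_bot]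
    exact hD0
  obtain ⟨c, hc⟩ : D ∣ (nD : 𝓞 F₀) := by
    rw [← Ideal.mem_span_singleton]
    exact Ideal.absNorm_mem _
  obtain ⟨N, hN⟩ := chain hp2 hNV _ F rfl h2pF (2 * nD * M)
    (mul_ne_zero (mul_ne_zero two_ne_zero hnD0) hM)
  refine ⟨N, ?_⟩
  intro K' L' K L _ _ _ _ _ _ _ _ _ _ C hR hi hKN hunr
  -- replace `k` by `k₁`
  have hj : Function.Surjective j := by
    letI : Algebra k₁ k := j.toAlgebra
    have h1 := Module.finrank_mul_finrank ℚ k₁ k
    rw [hk] at h1
    have h2 : Module.finrank k₁ k = 1 := by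
      have h3 : 0 < Module.finrank ℚ k₁ := Module.finrank_pos
      exact Nat.eq_of_mul_eq_mul_left h3 (by rw [h1, mul_one])
    intro x
    have h3 : x ∈ (⊥ : IntermediateField k₁ k) := by
      rw [IntermediateField.bot_eq_top_iff_finrank_eq_one.mpr h2]
      exact IntermediateField.mem_top
    exact IntermediateField.mem_bot.mp h3
  let C' : Comp k₁ K' L' K L :=
    { f := C.f.comp j
      g := C.g
      h := C.h
      comm := C.comm
      genK := by
        refine adj_top fun M _ hM => ?_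
        refine gen_mem C.genK M (rat_mem _) ?_
        rintro _ (⟨x, rfl⟩ | ⟨x, rfl⟩)
        · obtain ⟨y, rfl⟩ := hj x
          exact hM (Or.inl ⟨y, rfl⟩)
        · exact hM (Or.inr ⟨x, rfl⟩)
      genL := by
        refine adj_top fun M _ hM => ?_
        refine gen_mem C.genL M (rat_mem _) ?_
        rintro _ (⟨x, rfl⟩ | ⟨x, rfl⟩)
        · obtain ⟨y, rfl⟩ := hj x
          exact hM (Or.inl ⟨y, rfl⟩)
        · exact hM (Or.inr ⟨x, rfl⟩) }
  have hC'f : ∀ x, C'.f x = C.f (j x) := fun x => rfl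
  -- `L` has no real embedding
  have hLc : IsEmpty (L →+* ℝ) :=
    ⟨fun ψ => (no_real him).false (ψ.comp ((algebraMap K L).comp C'.f))⟩
  have hnotreal : ∀ C₁ : Comp F K' L' K L, False := fun C₁ => by
    obtain ⟨ψ⟩ := exists_real (real_of_comp C₁ hFreal hR.1)
    exact hLc.false ψ
  rcases sub_pair' C' F θ hFadj with ⟨C₁, -⟩ | ⟨K0, L0, _, _, _, _, _, _, _, _, _, _, C₁, hf,
    hne, hgK, hgL, hgen⟩
  · exact (hnotreal C₁).elim
  have hL0real : IsTotallyReal L0 := real_of_comp C₁ hFreal hR.1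
  have G : Good (2 * nD * M) K0 L0 := hN K' L' K0 L0 ⟨C₁⟩ hR hi hKN hL0real
    (unr_down (L := L) hunr)
  haveI := G.gal
  let D0 : 𝓞 K0 := RingOfIntegers.mapRingHom (C₁.f.comp e) D
  have hD0' : (D0 : K0) = C₁.f (e (D : F₀)) := rfl
  have hsq : (C'.f θ) ^ 2 = algebraMap K0 K (D0 : K0) := by
    rw [hD0', hf, ← map_pow, hθ]
    rfl
  haveI : Algebra.IsQuadraticExtension K0 K := quad_of_adjoin hsq hne hgK
  have hMM : M ∣ 2 * nD * M := dvd_mul_left _ _
  obtain ⟨hq, hgal, hodd2, hb, h3'⟩ := step_aux (K := K0) (L := L0) hsq hne hgL hgen G.odd hMM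
    G.bad G.three
  haveI := hq
  have hbadD : ∀ v : HeightOneSpectrum (𝓞 K0), 2 * D0 ∈ v.asIdeal →
      UniqueOver K0 L0 v.asIdeal := by
    intro v hv
    apply G.bad v
    have h5 : (nD : 𝓞 K0) = D0 * RingOfIntegers.mapRingHom (C₁.f.comp e) c := by
      have := congrArg (RingOfIntegers.mapRingHom (C₁.f.comp e)) hc
      rwa [map_natCast, map_mul] at this
    push_cast
    rw [h5]
    have e' : (2 : 𝓞 K0) * (D0 * RingOfIntegers.mapRingHom (C₁.f.comp e) c) * (M : 𝓞 K0) =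
        (2 * D0) * (RingOfIntegers.mapRingHom (C₁.f.comp e) c * M) := by ring
    rw [e']
    exact Ideal.mul_mem_right _ _ hv
  have hsqL : (algebraMap K L (C'.f θ)) ^ 2 = algebraMap L0 L (algebraMap K0 L0 (D0 : K0)) := by
    rw [← map_pow, hsq, ← IsScalarTower.algebraMap_apply K0 K L,
      ← IsScalarTower.algebraMap_apply K0 L0 L]
  have hneg : ∀ φ : L0 →+* ℝ, φ (algebraMap K0 L0 (D0 : K0)) < 0 :=
    neg_of_complex hLc hsqL hgL
  -- the hitting property
  let i : F₀ →+* L0 := (algebraMap K0 L0).comp (C₁.f.comp e)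
  let jL : k₁ →+* L := ((algebraMap K L).comp C.f).comp j
  have hij : ∀ x, algebraMap L0 L (i x) = jL (algebraMap F₀ k₁ x) := by
    intro x
    change algebraMap L0 L (algebraMap K0 L0 (C₁.f (e x))) = algebraMap K L (C.f (j _))
    rw [← IsScalarTower.algebraMap_apply K0 L0 L, IsScalarTower.algebraMap_apply K0 K L, hf, he,
      hC'f]
  have hjL : ∀ r : L0, algebraMap L0 L r ≠ jL θ := by
    intro r hr
    apply no_root G.odd hsq hne r
    apply (algebraMap L0 L).injective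
    rw [map_pow, hr, ← hsqL]
    rfl
  have hit : ∀ T : Set (HeightOneSpectrum (𝓞 k₁)), Hits F₀ T →
      ∀ w : HeightOneSpectrum (𝓞 L0), (2 : 𝓞 L0) ∈ w.asIdeal →
        ∃ W ∈ AboveS T jL, W.asIdeal.LiesOver w.asIdeal := by
    intro T hT w hw
    letI : Algebra F₀ L0 := i.toAlgebra
    have hbot : w.asIdeal.under (𝓞 F₀) ≠ ⊥ := Ideal.IsIntegral.comap_ne_bot _ w.ne_bot
    let u : HeightOneSpectrum (𝓞 F₀) := ⟨w.asIdeal.under (𝓞 F₀), inferInstance, hbot⟩
    have hu : ∀ x : 𝓞 F₀, x ∈ u.asIdeal ↔ RingOfIntegers.mapRingHom i x ∈ w.asIdeal := by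
      intro x
      change algebraMap (𝓞 F₀) (𝓞 L0) x ∈ w.asIdeal ↔ _
      have : algebraMap (𝓞 F₀) (𝓞 L0) x = RingOfIntegers.mapRingHom i x := by
        apply RingOfIntegers.coe_injective
        rfl
      rw [this]
    obtain ⟨v, hvT, hv⟩ := hT u (by rw [hu, map_ofNat]; exact hw)
    obtain ⟨W, hW, hvW⟩ := exists_above_cm i jL hij hθ hjL v w (fun x => by rw [hv, hu])
    exact ⟨W, ⟨v, hvT, hvW⟩, hW⟩
  exact ⟨hgal, hodd2, noNewOn_cm G.odd hsq hne hbadD hneg hunr (hit S hS) G.R1 G.R2,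
    noNewOn_cm G.odd hsq hne hbadD hneg hunr (hit S' hS') G.R1 G.R2, hb, h3'⟩

end H68IM
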