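import Pool.Agent.H68.QS.Df

/-!
# MP_78d38b: towers over a non-real field, definitions
-/

set_option autoImplicit false

open IsDedekindDomain NumberField WithZero Pool.Agent.H10 H5SW

namespace H68IM

/-- No new classes for the set `T` of primes (above two): an element of `L` which has even
valuation at all primes, is, up to squares, a square of a unit modulo four at all primes in `T`,
and whose norm to `K` is a square, is a square. -/
def NoNewOn (K L : Type*) [Field K] [NumberField K] [Field L] [NumberField L] [Algebra K L]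
    (T : Set (HeightOneSpectrum (𝓞 L))) : Prop :=
  ∀ x : L, x ≠ 0 → (∀ w : HeightOneSpectrum (𝓞 L), Even (log (w.valuation L x))) →
    IsSquare (Algebra.norm K x) →
    (∀ w ∈ T, ∃ t m : L, t ≠ 0 ∧ w.valuation L m = 1 ∧
        w.valuation L (x * t ^ 2 - m ^ 2) ≤ w.valuation L 4) → IsSquare x

/-- The primes of `L` above an ideal `P` of `k₁`, for a homomorphism `j : k₁ → L`. -/
def Above {k₁ L : Type} [Field k₁] [Field L] (P : Ideal (𝓞 k₁)) (j : k₁ →+* L) :
    Set (HeightOneSpectrum (𝓞 L)) :=
  {w | ∀ x ∈ P, RingOfIntegers.mapRingHom j x ∈ w.asIdeal}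

/-- The properties of a layer which are needed in the descent over a non-real field. -/
structure GoodI (M : ℤ) (K L : Type) [Field K] [NumberField K] [Field L] [NumberField L]
    [Algebra K L] (TP TQ : Set (HeightOneSpectrum (𝓞 L))) : Prop where
  gal : IsGalois K L
  odd : Odd (Module.finrank K L)
  RP : NoNewOn K L TP
  RQ : NoNewOn K L TQ
  bad : ∀ v : HeightOneSpectrum (𝓞 K), (M : 𝓞 K) ∈ v.asIdeal → UniqueOver K L v.asIdeal
  three : ¬ 3 ∣ Module.finrank K L ∨ ∀ v : HeightOneSpectrum (𝓞 K), (2 : 𝓞 K) ∈ v.asIdeal →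
    ∃ c : 𝓞 K, c ^ 3 + c ^ 2 + 1 ∈ v.asIdeal

end H68IM
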